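import Pool.Agent.MP_cb5fda_co.Order3

/-!
Graphs with no independent set of size three: no chromatic root right of the maximum degree.
-/

set_option autoImplicit false

namespace Pool.Agent.MP_cb5fda_co

open Finset Complex ComplexConjugate

variable {V : Type} [Fintype V] [DecidableEq V]

/-- no three pairwise non-adjacent vertices in `s` -/
def A2 (s : Finset V) (G : SimpleGraph V) : Prop :=
  ∀ a ∈ s, ∀ b ∈ s, ∀ c ∈ s, a ≠ b → a ≠ c → b ≠ c → G.Adj a b ∨ G.Adj a c ∨ G.Adj b c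

omit [Fintype V] [DecidableEq V] in
lemma A2.mono {s t : Finset V} {G : SimpleGraph V} (h : A2 s G) (hts : t ⊆ s) : A2 t G :=
  fun a ha b hb c hc => h a (hts ha) b (hts hb) c (hts hc)

omit [Fintype V] [DecidableEq V] in
lemma A2.sup {s : Finset V} {G : SimpleGraph V} (h : A2 s G) (G' : SimpleGraph V) :
    A2 s (G ⊔ G') := fun a ha b hb c hc h1 h2 h3 =>
  (h a ha b hb c hc h1 h2 h3).imp Or.inl (Or.imp Or.inl Or.inl)

/-- degree inside `s` -/
noncomputable def dg (s : Finset V) (G : SimpleGraph V) (y : V) : ℝ := (nb s G y).card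

omit [Fintype V] in
lemma dg_erase_le (s : Finset V) (G : SimpleGraph V) (u y : V) : dg (s.erase u) G y ≤ dg s G y := by
  unfold dg
  exact_mod_cast card_le_card fun z hz =>
    mem_nb.2 ⟨mem_of_mem_erase (mem_nb.1 hz).1, (mem_nb.1 hz).2⟩

omit [Fintype V] in
lemma dg_erase_adj {s : Finset V} {G : SimpleGraph V} {u y : V} (hu : u ∈ s) (h : G.Adj u y) :
    dg (s.erase u) G y = dg s G y - 1 := by
  unfold dg
  have : nb (s.erase u) G y = (nb s G y).erase u := by
    ext z
    simp only [mem_nb, mem_erase]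
    tauto
  rw [this, card_erase_real (mem_nb.2 ⟨hu, h.symm⟩)]

omit [Fintype V] in
lemma dg_star_le (s : Finset V) (G : SimpleGraph V) {x y : V} (F : Finset V) (h : y ≠ x) :
    dg s (G ⊔ star x F) y ≤ dg s G y + 1 := by
  unfold dg
  have : nb s (G ⊔ star x F) y ⊆ insert x (nb s G y) := by
    intro z hz
    rw [mem_nb, SimpleGraph.sup_adj, star_adj] at hz
    rw [mem_insert, mem_nb]
    rcases hz with ⟨h1, h2 | ⟨_, ⟨h2, _⟩ | ⟨h2, _⟩⟩⟩
    · exact Or.inr ⟨h1, h2⟩
    · exact absurd h2 h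
    · exact Or.inl h2
  exact_mod_cast (card_le_card this).trans (card_insert_le _ _)

omit [Fintype V] [DecidableEq V] in
lemma dg_star_eq (s : Finset V) (G : SimpleGraph V) {x y : V} {F : Finset V} (h : y ≠ x)
    (h' : y ∉ F) : dg s (G ⊔ star x F) y = dg s G y := by
  unfold dg
  congr 2
  ext z
  simp [mem_nb, star_adj, h, h']

/-- weight of the colourings in which `x`, `d` are removed together with one colour -/
noncomputable def pp (K : Finset V) (G : SimpleGraph V) (x d : V) (q : ℂ) : ℂ :=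
  q * ch ((K.erase x).erase d) G (q - 1)

lemma A2.addStar {K : Finset V} {G : SimpleGraph V} (h : A2 K G) {x : V} (hx : x ∈ K)
    (F : Finset V) (q : ℂ) :
    ch K G q = ch K (G ⊔ star x F) q + ∑ d ∈ eff K G x F, pp K G x d q := by
  rw [ch_addStar G hx F q]
  congr 1
  unfold New pp
  refine sum_congr rfl fun d hd => ?_
  have hd' := mem_eff.1 hd
  rw [ch_universal _ (eff_subset K G x F hd), ch_congr (star_erase G _ d _)]
  intro y hy hne
  rw [mem_erase] at hy
  rcases h x hx d hd'.1.2 y hy.2 hd'.1.1.symm hy.1.symm hne.symm with h' | h' | h'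
  · exact absurd h' hd'.2.2
  · exact Or.inr (star_adj.2 ⟨hne.symm, Or.inl ⟨rfl, mem_union_left _ (mem_nb.2 ⟨hy.2, h'⟩)⟩⟩)
  · exact Or.inl h'

lemma A2.expand {K : Finset V} {G : SimpleGraph V} (h : A2 K G) {x : V} (hx : x ∈ K) (q : ℂ) :
    ch K G q = q * ch (K.erase x) G (q - 1) + ∑ d ∈ eff K G x K, pp K G x d q := by
  rw [h.addStar hx K q, ch_star_all G hx]

/-- claim for an adjacent pair -/
def Rs (s : Finset V) : Prop := ∀ (G : SimpleGraph V) (q : ℂ) (a b : V), A2 s G → a ∈ s → b ∈ s →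
  G.Adj a b → (∀ y ∈ s, y ≠ a → dg s G y ≤ q.re) →
  (∀ y ∈ s, y ≠ a → y ≠ b → ¬ G.Adj a y → ¬ G.Adj b y → dg s G y + 1 ≤ q.re) →
  0 ≤ (ch s G q * conj (pp s G a b q)).re

lemma Rs.disc {K : Finset V} (hR : Rs K) {G : SimpleGraph V} (h : A2 K G) {q : ℂ} {x : V}
    (hx : x ∈ K) (F : Finset V) (hd : ∀ y ∈ K, y ≠ x → dg K (G ⊔ star x F) y ≤ q.re) :
    (ch K (G ⊔ star x F) q * conj (ch K G q)).re ≤ normSq (ch K G q) := by
  refine re_mul_conj_le (normSq_le_of_disc ?_).1
  rw [h.addStar hx F q, add_sub_cancel_left, sum_mul, re_sum]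
  refine sum_nonneg fun d hd' => ?_
  have hd'' := mem_eff.1 hd'
  rw [re_mul_conj_comm]
  have e : pp K G x d q = pp K (G ⊔ star x F) x d q := by
    unfold pp
    rw [ch_congr (G := G ⊔ star x F) (G' := G) fun a ha b hb =>
      star_erase G K x F a (mem_of_mem_erase ha) b (mem_of_mem_erase hb)]
  rw [e]
  refine hR _ q x d (h.sup _) hx hd''.1.2
    (Or.inr (star_adj.2 ⟨hd''.1.1.symm, Or.inl ⟨rfl, hd''.2.1⟩⟩)) hd ?_
  intro y hy h1 h2 h3 h4
  rcases h x hx d hd''.1.2 y hy hd''.1.1.symm h1.symm h2.symm with h' | h' | h'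
  · exact absurd h' hd''.2.2
  · exact absurd (Or.inl h') h3
  · exact absurd (Or.inl h') h4

lemma Rs.new_le {K : Finset V} (hR : Rs K) {G : SimpleGraph V} (h : A2 K G) {q : ℂ}
    {W : Finset V} (hW : W ⊆ K) (h1 : ∀ y ∈ K, dg K G y ≤ q.re)
    (h2 : ∀ y ∈ W, dg K G y + 1 ≤ q.re) :
    (New K G ∅ W q * conj (ch K G q)).re ≤ W.card * normSq (ch K G q) := by
  refine New_re_le_of fun x hx => hR.disc h (hW hx) _ fun y hy hne => ?_
  by_cases hy' : y ∈ ∅ ∪ lo W x
  · rw [empty_union] at hy'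
    exact (dg_star_le K G _ hne).trans (h2 y (lo_subset W x hy'))
  · rw [dg_star_eq K G hne hy']
    exact h1 y hy

lemma Rs.vertex {s : Finset V} {v : V} (hv : v ∈ s) (hR : Rs (s.erase v)) {G : SimpleGraph V}
    (h : A2 s G) {q : ℂ} (hd : ∀ y ∈ s, y ≠ v → dg s G y ≤ q.re) :
    (q.re - dg s G v) * normSq (ch (s.erase v) G q) ≤
      (ch s G q * conj (ch (s.erase v) G q)).re := by
  have b := hR.new_le (h.mono (erase_subset _ _)) (q := q) (nb_subset_erase s G v)
    (fun y hy => (dg_erase_le s G v y).trans (hd y (mem_of_mem_erase hy) (ne_of_mem_erase hy)))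
    (fun y hy => by
      rw [mem_nb] at hy
      rw [dg_erase_adj hv hy.2]
      have := hd y hy.1 hy.2.ne'
      linarith)
  rw [ch_erase G hv q]
  simp only [sub_mul, sub_re]
  rw [mul_assoc, mul_conj, re_mul_ofReal]
  unfold dg
  linarith

lemma all_Rs (s : Finset V) : Rs s := by
  induction s using Finset.strongInduction with
  | H s ih =>
  classical
  intro G q a b h ha hb hab hd hC
  set s' := s.erase b with hs'
  have has' : a ∈ s' := mem_erase.2 ⟨hab.ne, ha⟩
  set K := s'.erase a with hK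
  have hKs : K ⊂ s := (erase_ssubset has').trans (erase_ssubset hb)
  have memK : ∀ y, y ∈ K ↔ y ≠ a ∧ y ≠ b ∧ y ∈ s := fun y => by simp [hK, hs']
  have hAK : A2 K G := h.mono hKs.subset
  set κ := ch K G (q - 1) with hκ
  set W := K.filter fun y => G.Adj a y ∧ G.Adj b y with hW
  set E := K.filter fun y => G.Adj a y ∧ ¬ G.Adj b y with hE
  set C := K.filter fun y => ¬ G.Adj a y ∧ ¬ G.Adj b y with hCdef
  set A := K.filter fun y => ¬ G.Adj a y with hA
  have memA : ∀ y z, z ∈ A.erase y ↔ z ≠ y ∧ z ∈ K ∧ ¬ G.Adj a z := fun y z => by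
    rw [mem_erase, hA, mem_filter]
  have hre : (q - 1).re = q.re - 1 := by simp
  have hre2 : (q - 1 - 1).re = q.re - 2 := by simp only [sub_re, one_re]; ring
  -- degrees in K
  have dK1 : ∀ y ∈ K, dg K G y ≤ (q - 1).re := by
    intro y hy
    obtain ⟨h1, h2, h3⟩ := (memK y).1 hy
    have h4 := hd y h3 h1
    rw [hre]
    by_cases e1 : G.Adj a y
    · rw [hK, dg_erase_adj has' e1]
      have := dg_erase_le s G b y
      linarith
    · by_cases e2 : G.Adj b y
      · have := dg_erase_le s' G a y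
        rw [hs', dg_erase_adj hb e2] at this
        linarith
      · have := hC y h3 h1 h2 e1 e2
        have := dg_erase_le s' G a y
        have := dg_erase_le s G b y
        linarith
  have dK2 : ∀ y ∈ K, G.Adj a y → G.Adj b y → dg K G y + 1 ≤ (q - 1).re := by
    intro y hy e1 e2
    obtain ⟨h1, h2, h3⟩ := (memK y).1 hy
    have h4 := hd y h3 h1
    rw [hre, hK, dg_erase_adj has' e1, hs', dg_erase_adj hb e2]
    linarith
  have cliqueA : ∀ y ∈ K, ∀ z ∈ K, y ≠ z → ¬ G.Adj a y → ¬ G.Adj a z → G.Adj y z := by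
    intro y hy z hz hne e1 e2
    obtain ⟨h1, _, h3⟩ := (memK y).1 hy
    obtain ⟨h4, _, h6⟩ := (memK z).1 hz
    rcases h a ha y h3 z h6 h1.symm h4.symm hne with h' | h' | h'
    exacts [absurd h' e1, absurd h' e2, h']
  have cliqueB : ∀ y ∈ K, ∀ z ∈ K, y ≠ z → ¬ G.Adj b y → ¬ G.Adj b z → G.Adj y z := by
    intro y hy z hz hne e1 e2
    obtain ⟨_, h1, h3⟩ := (memK y).1 hy
    obtain ⟨_, h4, h6⟩ := (memK z).1 hz
    rcases h b hb y h3 z h6 h1.symm h4.symm hne with h' | h' | h'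
    exacts [absurd h' e1, absurd h' e2, h']
  -- positivity of the pair terms
  have pos2 : ∀ y ∈ K, ∀ z ∈ K, ¬ G.Adj b y → ¬ G.Adj a z → G.Adj y z →
      0 ≤ (pp K G y z (q - 1) * conj κ).re := by
    intro y hy z hz e1 e2 e3
    rw [re_mul_conj_comm]
    refine ih K hKs G (q - 1) y z hAK hy hz e3 (fun t ht _ => dK1 t ht) ?_
    intro t ht n1 n2 n3 n4
    refine dK2 t ht ?_ ?_
    · by_contra n5
      exact n4 (cliqueA z hz t ht n2.symm e2 n5)
    · by_contra n5
      exact n3 (cliqueB y hy t ht n1.symm e1 n5)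
  -- positivity of the singleton terms
  have pos1 : ∀ c ∈ K, ¬ G.Adj a c → ¬ G.Adj b c →
      0 ≤ ((q - 1) * ch (K.erase c) G (q - 1 - 1) * conj κ).re := by
    intro c hc e1 e2
    have hW' : ∀ y ∈ K, y ≠ c → ¬ G.Adj c y → dg K G y + 1 ≤ (q - 1).re := by
      intro y hy n1 n2
      refine dK2 y hy ?_ ?_
      · by_contra n5
        exact n2 (cliqueA c hc y hy n1.symm e1 n5)
      · by_contra n5
        exact n2 (cliqueB c hc y hy n1.symm e2 n5)
    have dL : ∀ y ∈ K.erase c, dg (K.erase c) G y ≤ (q - 1 - 1).re := by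
      intro y hy
      rw [mem_erase] at hy
      rw [hre2]
      by_cases e3 : G.Adj c y
      · rw [dg_erase_adj hc e3]
        have := dK1 y hy.2
        rw [hre] at this
        linarith
      · have := hW' y hy.2 hy.1 e3
        have := dg_erase_le K G c y
        rw [hre] at *
        linarith
    rw [re_mul_conj_comm, hκ, hAK.expand hc (q - 1), add_mul, add_re, mul_conj, ofReal_re,
      sum_mul, re_sum]
    refine add_nonneg (normSq_nonneg _) (sum_nonneg fun d hd' => ?_)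
    have hdL : d ∈ K.erase c := eff_subset K G c K hd'
    have b := (ih ((K.erase c).erase d)
      (((erase_ssubset hdL).trans (erase_ssubset hc)).trans hKs)).vertex hdL
      (hAK.mono (erase_subset _ _)) (q := q - 1 - 1) (fun y hy _ => dL y hy)
    have b' : 0 ≤ (ch (K.erase c) G (q - 1 - 1) *
        conj (ch ((K.erase c).erase d) G (q - 1 - 1))).re :=
      le_trans (mul_nonneg (by linarith [dL d hdL]) (normSq_nonneg _)) b
    unfold pp
    have e : (q - 1) * ch ((K.erase c).erase d) G (q - 1 - 1) *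
        conj ((q - 1) * ch (K.erase c) G (q - 1 - 1)) = (normSq (q - 1) : ℂ) *
        (ch ((K.erase c).erase d) G (q - 1 - 1) * conj (ch (K.erase c) G (q - 1 - 1))) := by
      rw [← mul_conj]; simp only [map_mul]; ring
    rw [e, re_ofReal_mul, re_mul_conj_comm]
    exact mul_nonneg (normSq_nonneg _) b'
  -- expansion of the terms indexed by non-neighbours of b
  have exp1 : ∀ y ∈ K, ch (s'.erase y) G (q - 1) = (q - 1) * ch (K.erase y) G (q - 1 - 1) +
      ∑ z ∈ A.erase y, pp K G y z (q - 1) := by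
    intro y hy
    obtain ⟨h1, h2, h3⟩ := (memK y).1 hy
    have has'' : a ∈ s'.erase y := mem_erase.2 ⟨h1.symm, has'⟩
    rw [(h.mono ((erase_subset _ _).trans (erase_subset _ _))).expand has'' (q - 1)]
    have e0 : (s'.erase y).erase a = K.erase y := erase_right_comm
    have e1 : eff (s'.erase y) G a (s'.erase y) = A.erase y := by
      ext z
      simp only [mem_eff, hA, hK, mem_erase, mem_filter]
      tauto
    rw [e1, e0]
    unfold pp
    rw [e0]
  have exp2 : ∀ y ∈ E, ch K (G ⊔ star y (W ∪ lo E y)) (q - 1) =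
      (q - 1) * ch (K.erase y) G (q - 1 - 1) +
      ∑ z ∈ (A.erase y).filter (fun z => ¬ G.Adj y z), pp K G y z (q - 1) := by
    intro y hy
    rw [hE, mem_filter] at hy
    rw [(hAK.sup (star y (W ∪ lo E y))).expand hy.1 (q - 1), ch_congr (star_erase G K y _)]
    have e1 : eff K (G ⊔ star y (W ∪ lo E y)) y K = (A.erase y).filter (fun z => ¬ G.Adj y z) := by
      ext z
      rw [mem_eff, SimpleGraph.sup_adj, star_adj, mem_filter, memA]
      constructor
      · rintro ⟨⟨n1, n2⟩, -, n3⟩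
        have n4 : ¬ G.Adj y z := fun e => n3 (Or.inl e)
        refine ⟨⟨n1, n2, fun e => ?_⟩, n4⟩
        by_cases e' : G.Adj b z
        · exact n3 (Or.inr ⟨n1.symm, Or.inl ⟨rfl, mem_union_left _ (mem_filter.2 ⟨n2, e, e'⟩)⟩⟩)
        · exact n4 (cliqueB y hy.1 z n2 n1.symm hy.2.2 e')
      · rintro ⟨⟨n1, n2, n3⟩, n4⟩
        refine ⟨⟨n1, n2⟩, n2, ?_⟩
        rintro (e | ⟨_, ⟨_, e⟩ | ⟨e, _⟩⟩)
        · exact n4 e
        · rcases mem_union.1 e with e | e
          · exact n3 (mem_filter.1 e).2.1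
          · exact n3 (mem_filter.1 (lo_subset E y e)).2.1
        · exact n1 e
    rw [e1]
    congr 1
    refine sum_congr rfl fun z _ => ?_
    unfold pp
    rw [ch_congr (G := G ⊔ star y (W ∪ lo E y)) (G' := G) fun a ha b hb =>
      star_erase G K y _ a (mem_of_mem_erase ha) b (mem_of_mem_erase hb)]
  have hWK : W ⊆ K := filter_subset _ _
  have hEK : E ⊆ K := filter_subset _ _
  have hWE : Disjoint W E := by
    rw [disjoint_left]
    intro y h1 h2
    exact (mem_filter.1 h2).2.2 (mem_filter.1 h1).2.2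
  have hEC : Disjoint E C := by
    rw [disjoint_left]
    intro y h1 h2
    exact (mem_filter.1 h2).2.1 (mem_filter.1 h1).2.1
  have e1 : nb s' G a = W ∪ E := by
    ext y
    simp only [mem_nb, mem_union, hW, hE, mem_filter, hK, mem_erase]
    constructor
    · rintro ⟨h1, h2⟩
      by_cases e : G.Adj b y
      · exact Or.inl ⟨⟨h2.ne', h1⟩, h2, e⟩
      · exact Or.inr ⟨⟨h2.ne', h1⟩, h2, e⟩
    · rintro (⟨h1, h2, _⟩ | ⟨h1, h2, _⟩) <;> exact ⟨h1.2, h2⟩
  have e2 : eff s G b s = E ∪ C := by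
    ext y
    rw [mem_eff, mem_union, hE, hCdef, mem_filter, mem_filter, memK]
    constructor
    · rintro ⟨⟨h1, h2⟩, -, h3⟩
      have h4 : y ≠ a := fun e => h3 (e ▸ hab.symm)
      by_cases e : G.Adj a y
      · exact Or.inl ⟨⟨h4, h1, h2⟩, e, h3⟩
      · exact Or.inr ⟨⟨h4, h1, h2⟩, e, h3⟩
    · rintro (⟨h1, _, h2⟩ | ⟨h1, _, h2⟩) <;> exact ⟨⟨h1.2.1, h1.2.2⟩, h1.2.2, h2⟩
  have e3 : ch s G q = q * ((q - 1) * κ - New K G ∅ W (q - 1) +
      ∑ y ∈ E, (ch (s'.erase y) G (q - 1) - ch K (G ⊔ star y (W ∪ lo E y)) (q - 1)) +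
      ∑ y ∈ C, ch (s'.erase y) G (q - 1)) := by
    rw [h.expand hb q, e2, sum_union hEC, ← hs', ch_erase G has' (q - 1), ← hK, e1,
      New_split G hWK hEK hWE, sum_sub_distrib]
    unfold pp
    rw [← mul_sum, ← mul_sum]
    unfold New
    ring
  have e4 : pp s G a b q = q * κ := by
    unfold pp
    rw [erase_right_comm]
  have b1 := (ih K hKs).new_le hAK hWK dK1 fun y hy =>
    dK2 y (hWK hy) (mem_filter.1 hy).2.1 (mem_filter.1 hy).2.2
  have b2 : 0 ≤ ((∑ y ∈ E, (ch (s'.erase y) G (q - 1) -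
      ch K (G ⊔ star y (W ∪ lo E y)) (q - 1))) * conj κ).re := by
    rw [sum_mul, re_sum]
    refine sum_nonneg fun y hy => ?_
    rw [exp1 y (hEK hy), exp2 y hy, add_sub_add_left_eq_sub,
      ← sum_filter_add_sum_filter_not (A.erase y) (fun z => G.Adj y z), add_sub_cancel_right,
      sum_mul, re_sum]
    refine sum_nonneg fun z hz => ?_
    rw [mem_filter, memA] at hz
    exact pos2 y (hEK hy) z hz.1.2.1 (mem_filter.1 hy).2.2 hz.1.2.2 hz.2
  have b3 : 0 ≤ ((∑ y ∈ C, ch (s'.erase y) G (q - 1)) * conj κ).re := by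
    rw [sum_mul, re_sum]
    refine sum_nonneg fun y hy => ?_
    rw [hCdef, mem_filter] at hy
    rw [exp1 y hy.1, add_mul, add_re, sum_mul, re_sum]
    refine add_nonneg (pos1 y hy.1 hy.2.1 hy.2.2) (sum_nonneg fun z hz => ?_)
    rw [memA] at hz
    exact pos2 y hy.1 z hz.2.1 hy.2.2 hz.2.2 (cliqueA y hy.1 z hz.2.1 hz.1.symm hy.2.1 hz.2.2)
  have b4 : (W.card : ℝ) ≤ (q - 1).re := by
    have h1 := hd b hb hab.ne'
    have h2 : dg (s.erase a) G b = dg s G b - 1 := dg_erase_adj ha hab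
    have h3 : (W.card : ℝ) ≤ dg (s.erase a) G b := by
      unfold dg
      exact_mod_cast card_le_card fun y hy => by
        rw [hW, mem_filter, memK] at hy
        exact mem_nb.2 ⟨mem_erase.2 ⟨hy.1.1, hy.1.2.2⟩, hy.2.2⟩
    rw [hre]; linarith
  rw [e3, e4]
  have e5 : ∀ t : ℂ, q * t * conj (q * κ) = (normSq q : ℂ) * (t * conj κ) := by
    intro t
    rw [← mul_conj]; simp only [map_mul]; ring
  rw [e5, re_ofReal_mul]
  refine mul_nonneg (normSq_nonneg _) ?_
  simp only [add_mul, sub_mul, add_re, sub_re] at b2 b3 ⊢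
  rw [← hκ] at b1
  have e6 : (q * κ * conj κ).re = q.re * normSq κ := by rw [mul_assoc, mul_conj, re_mul_ofReal]
  have e7 : (1 * κ * conj κ).re = normSq κ := by rw [one_mul, mul_conj, ofReal_re]
  rw [e6, e7]
  rw [hre] at b4
  have := normSq_nonneg κ
  nlinarith

lemma alpha2_ne_zero (s : Finset V) {G : SimpleGraph V} (h : A2 s G) {q : ℂ}
    (hd : ∀ y ∈ s, dg s G y < q.re) : ch s G q ≠ 0 := by
  induction s using Finset.strongInduction with
  | H s ih =>
  rcases s.eq_empty_or_nonempty with rfl | ⟨v, hv⟩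
  · rw [ch_empty]; exact one_ne_zero
  · have h0 := ih _ (erase_ssubset hv) (h.mono (erase_subset _ _))
      fun y hy => (dg_erase_le s G v y).trans_lt (hd y (mem_of_mem_erase hy))
    have b := (all_Rs (s.erase v)).vertex hv h (q := q) fun y hy _ => (hd y hy).le
    intro e
    rw [e, zero_mul, zero_re] at b
    have := mul_pos (sub_pos.2 (hd v hv)) (normSq_pos.2 h0)
    linarith

end Pool.Agent.MP_cb5fda_co
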