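import Mathlib.Algebra.Algebra.Rat
import Mathlib.Algebra.Polynomial.Roots
import Mathlib.Data.Complex.Basic
import Mathlib.Combinatorics.SimpleGraph.Coloring.Vertex
import Mathlib.RingTheory.SimpleRing.Principal
import Mathlib.Order.CompletePartialOrder

-- ======== part 0: formerly Pool.Agent.MP_cb5fda_co.Count
section MrgPart0

/-!
Counting proper colourings of a graph restricted to a finite vertex set, and the two basic
counting identities (removing a vertex, counting unused colours).
-/

set_option autoImplicit false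

namespace Pool.Agent.MP_cb5fda_co

open Finset

variable {V : Type} [Fintype V] [DecidableEq V]

open Classical in
/-- proper colourings of `G` on `s` with colours in `C`, normalised to `0` off `s` -/
noncomputable def Col (s : Finset V) (G : SimpleGraph V) (C : Finset ℕ) : Finset (V → ℕ) :=
  (Fintype.piFinset fun v => if v ∈ s then C else {0}).filter
    fun f => ∀ a ∈ s, ∀ b ∈ s, G.Adj a b → f a ≠ f b

lemma mem_Col {s : Finset V} {G : SimpleGraph V} {C : Finset ℕ} {f : V → ℕ} :
    f ∈ Col s G C ↔ (∀ v ∈ s, f v ∈ C) ∧ (∀ v, v ∉ s → f v = 0) ∧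
      ∀ a ∈ s, ∀ b ∈ s, G.Adj a b → f a ≠ f b := by
  unfold Col
  simp only [mem_filter, Fintype.mem_piFinset]
  constructor
  · rintro ⟨h1, h2⟩
    refine ⟨fun v hv => ?_, fun v hv => ?_, h2⟩
    · simpa [hv] using h1 v
    · simpa [hv] using h1 v
  · rintro ⟨h1, h2, h3⟩
    refine ⟨fun v => ?_, h3⟩
    by_cases hv : v ∈ s
    · simpa [hv] using h1 v hv
    · simpa [hv] using h2 v hv

lemma Col_congr {s : Finset V} {G G' : SimpleGraph V} (C : Finset ℕ)
    (h : ∀ a ∈ s, ∀ b ∈ s, G.Adj a b ↔ G'.Adj a b) : Col s G C = Col s G' C := by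
  ext f
  simp only [mem_Col]
  constructor
  · rintro ⟨h1, h2, h3⟩
    exact ⟨h1, h2, fun a ha b hb hab => h3 a ha b hb ((h a ha b hb).2 hab)⟩
  · rintro ⟨h1, h2, h3⟩
    exact ⟨h1, h2, fun a ha b hb hab => h3 a ha b hb ((h a ha b hb).1 hab)⟩

lemma card_Col_le (s : Finset V) (G : SimpleGraph V) {C C' : Finset ℕ} (h : C.card ≤ C'.card) :
    (Col s G C).card ≤ (Col s G C').card := by
  classical
  obtain ⟨φ, hφ1, hφ2⟩ := Set.Finite.exists_injOn_of_encard_le (s := (C : Set ℕ)) (t := (C' : Set ℕ))
    C.finite_toSet (by simpa [Set.encard_coe_eq_coe_finsetCard] using h)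
  refine card_le_card_of_injOn (fun f v => if v ∈ s then φ (f v) else 0) ?_ ?_
  · intro f hf
    have hf' := mem_Col.1 (mem_coe.1 hf)
    refine mem_coe.2 (mem_Col.2 ⟨fun v hv => ?_, fun v hv => by simp [hv], ?_⟩)
    · have : f v ∈ (C : Set ℕ) := hf'.1 v hv
      simpa [hv] using hφ1 this
    · intro a ha b hb hab
      simp only [ha, hb, if_true]
      intro e
      exact hf'.2.2 a ha b hb hab (hφ2 (hf'.1 a ha) (hf'.1 b hb) e)
  · intro f hf g hg e
    have hf' := mem_Col.1 (mem_coe.1 hf)
    have hg' := mem_Col.1 (mem_coe.1 hg)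
    funext v
    by_cases hv : v ∈ s
    · have := congrFun e v
      simp only [hv, if_true] at this
      exact hφ2 (hf'.1 v hv) (hg'.1 v hv) this
    · rw [hf'.2.1 v hv, hg'.2.1 v hv]

lemma card_Col_eq (s : Finset V) (G : SimpleGraph V) {C C' : Finset ℕ} (h : C.card = C'.card) :
    (Col s G C).card = (Col s G C').card :=
  le_antisymm (card_Col_le s G h.le) (card_Col_le s G h.ge)

/-- the star with centre `x` and leaves `E` -/
def star (x : V) (E : Finset V) : SimpleGraph V :=
  SimpleGraph.fromRel fun a b => a = x ∧ b ∈ E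

omit [Fintype V] [DecidableEq V] in
lemma star_adj {x : V} {E : Finset V} {a b : V} :
    (star x E).Adj a b ↔ a ≠ b ∧ ((a = x ∧ b ∈ E) ∨ (b = x ∧ a ∈ E)) := by
  simp [star, SimpleGraph.fromRel_adj]

/-- a fixed injective ranking of the vertices -/
noncomputable def rk (v : V) : ℕ := (Fintype.equivFin V v : ℕ)

omit [DecidableEq V] in
lemma rk_inj {a b : V} (h : rk a = rk b) : a = b :=
  (Fintype.equivFin V).injective (Fin.ext h)

/-- the elements of `D` ranked before `x` -/
noncomputable def lo (D : Finset V) (x : V) : Finset V := D.filter fun y => rk y < rk x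

omit [DecidableEq V] in
lemma mem_lo {D : Finset V} {x y : V} : y ∈ lo D x ↔ y ∈ D ∧ rk y < rk x := by
  simp [lo]

omit [DecidableEq V] in
lemma lo_subset (D : Finset V) (x : V) : lo D x ⊆ D := filter_subset _ _

lemma Col_star {s : Finset V} (G : SimpleGraph V) (C : Finset ℕ) {x : V} (hx : x ∈ s)
    {W : Finset V} (hW : W ⊆ s) (hxW : x ∉ W) :
    Col s (G ⊔ star x W) C = (Col s G C).filter fun f => f x ∉ W.image f := by
  ext f
  simp only [mem_Col, mem_filter, SimpleGraph.sup_adj, star_adj, mem_image, not_exists, not_and]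
  constructor
  · rintro ⟨h1, h2, h3⟩
    refine ⟨⟨h1, h2, fun a ha b hb hab => h3 a ha b hb (Or.inl hab)⟩, fun y hy e => ?_⟩
    have hne : x ≠ y := fun e' => hxW (e' ▸ hy)
    exact h3 x hx y (hW hy) (Or.inr ⟨hne, Or.inl ⟨rfl, hy⟩⟩) e.symm
  · rintro ⟨⟨h1, h2, h3⟩, h4⟩
    refine ⟨h1, h2, fun a ha b hb hab => ?_⟩
    rcases hab with hab | ⟨_, ⟨rfl, hb'⟩ | ⟨rfl, ha'⟩⟩
    · exact h3 a ha b hb hab
    · exact fun e => h4 b hb' e.symm
    · exact fun e => h4 a ha' e

lemma card_image_union (g : V → ℕ) (F D : Finset V) :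
    ((F ∪ D).image g).card = (F.image g).card +
      (D.filter fun x => g x ∉ (F ∪ lo D x).image g).card := by
  have h1 : (F ∪ D).image g = F.image g ∪ ((D.filter fun x => g x ∉ (F ∪ lo D x).image g).image g) := by
    ext c
    simp only [mem_image, mem_union, mem_filter]
    constructor
    · rintro ⟨y, hy, rfl⟩
      by_cases hF : ∃ a ∈ F, g a = g y
      · exact Or.inl hF
      · right
        have hyD : y ∈ D := by
          rcases hy with hy | hy
          · exact absurd ⟨y, hy, rfl⟩ hF
          · exact hy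
        obtain ⟨x, hx, hmin⟩ := exists_min_image (D.filter fun z => g z = g y) rk
          ⟨y, by simp [hyD]⟩
        rw [mem_filter] at hx
        refine ⟨x, ⟨hx.1, ?_⟩, hx.2⟩
        rintro ⟨z, hz | hz, e⟩
        · exact hF ⟨z, hz, e.trans hx.2⟩
        · rw [mem_lo] at hz
          have := hmin z (by simp [hz.1, e.trans hx.2])
          omega
    · rintro (⟨y, hy, rfl⟩ | ⟨y, ⟨hy, _⟩, rfl⟩)
      · exact ⟨y, Or.inl hy, rfl⟩
      · exact ⟨y, Or.inr hy, rfl⟩
  rw [h1, card_union_of_disjoint, card_image_of_injOn (s := D.filter _)]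
  · intro x hx y hy e
    simp only [coe_filter, Set.mem_ofPred_eq, mem_image, mem_union, not_exists, not_and] at hx hy
    by_contra hne
    rcases lt_trichotomy (rk x) (rk y) with h | h | h
    · exact hy.2 x (Or.inr (mem_lo.2 ⟨hx.1, h⟩)) e
    · exact hne (rk_inj h)
    · exact hx.2 y (Or.inr (mem_lo.2 ⟨hy.1, h⟩)) e.symm
  · rw [disjoint_left]
    intro c hc hc'
    simp only [mem_image, mem_filter, mem_union, not_exists, not_and] at hc hc'
    obtain ⟨a, ha, rfl⟩ := hc
    obtain ⟨x, ⟨_, hx⟩, e⟩ := hc'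
    exact hx a (Or.inl ha) e.symm

/-- total number of colours seen on `F ∪ D`, split at `F` -/
lemma sum_image_union {s : Finset V} (G : SimpleGraph V) (C : Finset ℕ) {F D : Finset V}
    (hF : F ⊆ s) (hD : D ⊆ s) (hFD : Disjoint F D) :
    ∑ f ∈ Col s G C, ((F ∪ D).image f).card = ∑ f ∈ Col s G C, (F.image f).card +
      ∑ x ∈ D, (Col s (G ⊔ star x (F ∪ lo D x)) C).card := by
  simp only [card_image_union, sum_add_distrib]
  congr 1
  simp only [card_filter]
  rw [sum_comm]
  refine sum_congr rfl fun x hx => ?_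
  rw [Col_star G C (hD hx) (union_subset hF ((lo_subset D x).trans hD)), card_filter]
  simp only [mem_union, mem_lo, not_or]
  exact ⟨fun h => disjoint_left.1 hFD h hx, fun h => lt_irrefl _ h.2⟩

open Classical in
/-- neighbours of `u` inside `s` -/
noncomputable def nb (s : Finset V) (G : SimpleGraph V) (u : V) : Finset V :=
  s.filter fun y => G.Adj u y

omit [Fintype V] [DecidableEq V] in
lemma mem_nb {s : Finset V} {G : SimpleGraph V} {u y : V} : y ∈ nb s G u ↔ y ∈ s ∧ G.Adj u y := by
  simp [nb]

omit [Fintype V] in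
lemma nb_subset_erase (s : Finset V) (G : SimpleGraph V) (u : V) : nb s G u ⊆ s.erase u := by
  intro y hy
  rw [mem_nb] at hy
  exact mem_erase.2 ⟨hy.2.ne', hy.1⟩

lemma card_Col_erase {s : Finset V} (G : SimpleGraph V) (C : Finset ℕ) {u : V} (hu : u ∈ s) :
    (Col s G C).card + ∑ f ∈ Col (s.erase u) G C, ((nb s G u).image f).card =
      C.card * (Col (s.erase u) G C).card := by
  have h1 : (Col s G C).card =
      ∑ g ∈ Col (s.erase u) G C, (C \ (nb s G u).image g).card := by
    rw [card_eq_sum_card_fiberwise (f := fun f => Function.update f u 0)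
      (t := Col (s.erase u) G C)]
    · refine sum_congr rfl fun g hg => ?_
      have hg' := mem_Col.1 hg
      symm
      refine card_bij (fun c _ => Function.update g u c) ?_ ?_ ?_
      · intro c hc
        rw [mem_sdiff] at hc
        rw [mem_filter]
        refine ⟨mem_Col.2 ⟨fun v hv => ?_, fun v hv => ?_, fun a ha b hb hab => ?_⟩, ?_⟩
        · by_cases e : v = u
          · subst e; simpa using hc.1
          · rw [Function.update_of_ne e]; exact hg'.1 v (mem_erase.2 ⟨e, hv⟩)
        · have e : v ≠ u := fun e => hv (e ▸ hu)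
          rw [Function.update_of_ne e]; exact hg'.2.1 v (by simp [hv])
        · by_cases ea : a = u
          · subst ea
            rw [Function.update_self, Function.update_of_ne hab.ne']
            intro e
            exact hc.2 (mem_image.2 ⟨b, mem_nb.2 ⟨hb, hab⟩, e.symm⟩)
          · by_cases eb : b = u
            · subst eb
              rw [Function.update_self, Function.update_of_ne ea]
              intro e
              exact hc.2 (mem_image.2 ⟨a, mem_nb.2 ⟨ha, hab.symm⟩, e⟩)
            · rw [Function.update_of_ne ea, Function.update_of_ne eb]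
              exact hg'.2.2 a (mem_erase.2 ⟨ea, ha⟩) b (mem_erase.2 ⟨eb, hb⟩) hab
        · rw [Function.update_idem]
          have : g u = 0 := hg'.2.1 u (by simp)
          rw [← this, Function.update_eq_self]
      · intro c _ c' _ e
        simpa using congrFun e u
      · intro f hf
        rw [mem_filter] at hf
        have hf' := mem_Col.1 hf.1
        refine ⟨f u, mem_sdiff.2 ⟨hf'.1 u hu, ?_⟩, ?_⟩
        · intro h
          obtain ⟨y, hy, e⟩ := mem_image.1 h
          rw [mem_nb] at hy
          rw [← hf.2, Function.update_of_ne hy.2.ne'] at e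
          exact hf'.2.2 u hu y hy.1 hy.2 e.symm
        · rw [← hf.2, Function.update_idem, Function.update_eq_self]
    · intro f hf
      have hf' := mem_Col.1 (mem_coe.1 hf)
      show Function.update f u 0 ∈ _
      refine mem_coe.2 (mem_Col.2 ⟨fun v hv => ?_, fun v hv => ?_, fun a ha b hb hab => ?_⟩)
      · rw [mem_erase] at hv
        rw [Function.update_of_ne hv.1]; exact hf'.1 v hv.2
      · by_cases e : v = u
        · subst e; simp
        · rw [Function.update_of_ne e]; exact hf'.2.1 v (fun h => hv (mem_erase.2 ⟨e, h⟩))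
      · rw [mem_erase] at ha hb
        rw [Function.update_of_ne ha.1, Function.update_of_ne hb.1]
        exact hf'.2.2 a ha.2 b hb.2 hab
  rw [h1, ← sum_add_distrib, mul_comm, ← smul_eq_mul, ← sum_const]
  refine sum_congr rfl fun g hg => ?_
  have hg' := mem_Col.1 hg
  apply card_sdiff_add_card_eq_card
  intro c hc
  obtain ⟨y, hy, rfl⟩ := mem_image.1 hc
  exact hg'.1 y (nb_subset_erase s G u hy)

lemma card_Col_unused (s : Finset V) (G : SimpleGraph V) (n : ℕ) :
    (n + 1) * (Col s G (range n)).card + ∑ f ∈ Col s G (range (n + 1)), (s.image f).card =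
      (n + 1) * (Col s G (range (n + 1))).card := by
  have h1 : (n + 1) * (Col s G (range n)).card =
      ∑ f ∈ Col s G (range (n + 1)), (range (n + 1) \ s.image f).card := by
    have h2 : ∀ c ∈ range (n + 1), (Col s G (range n)).card =
        ((Col s G (range (n + 1))).filter fun f => c ∉ s.image f).card := by
      intro c hc
      rw [card_Col_eq s G (C' := (range (n + 1)).erase c) (by simp [card_erase_of_mem hc])]
      congr 1
      ext f
      simp only [mem_Col, mem_filter, mem_erase, mem_image, not_exists, not_and]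
      constructor
      · rintro ⟨h1, h2, h3⟩
        exact ⟨⟨fun v hv => (h1 v hv).2, h2, h3⟩, fun v hv => (h1 v hv).1⟩
      · rintro ⟨⟨h1, h2, h3⟩, h4⟩
        exact ⟨fun v hv => ⟨h4 v hv, h1 v hv⟩, h2, h3⟩
    calc (n + 1) * (Col s G (range n)).card
        = ∑ _c ∈ range (n + 1), (Col s G (range n)).card := by simp
      _ = ∑ c ∈ range (n + 1), ((Col s G (range (n + 1))).filter fun f => c ∉ s.image f).card :=
          sum_congr rfl h2
      _ = _ := by
          simp only [card_filter]
          rw [sum_comm]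
          refine sum_congr rfl fun f _ => ?_
          rw [← card_filter, sdiff_eq_filter]
  rw [h1, ← sum_add_distrib, mul_comm, ← smul_eq_mul, ← sum_const]
  refine sum_congr rfl fun g hg => ?_
  have hg' := mem_Col.1 hg
  rw [card_sdiff_add_card_eq_card, card_range]
  intro c hc
  obtain ⟨y, hy, rfl⟩ := mem_image.1 hc
  exact hg'.1 y hy

lemma card_Col_empty (G : SimpleGraph V) (C : Finset ℕ) : (Col ∅ G C).card = 1 := by
  rw [card_eq_one]
  refine ⟨fun _ => 0, ?_⟩
  ext f
  simp only [mem_Col, notMem_empty, mem_singleton]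
  constructor
  · rintro ⟨_, h, _⟩
    funext v
    exact h v (by simp)
  · rintro rfl
    simp

lemma card_Col_univ (G : SimpleGraph V) (n : ℕ) :
    (Col univ G (range n)).card = Nat.card (G.Coloring (Fin n)) := by
  rw [← Nat.card_eq_finsetCard]
  symm
  refine Nat.card_congr (Equiv.ofBijective
    (fun c => ⟨fun v => (c v : ℕ), mem_Col.2 ⟨fun v _ => by simp, fun v hv => by simp at hv,
      fun a _ b _ hab e => c.valid hab (Fin.ext e)⟩⟩) ⟨?_, ?_⟩)
  · intro c c' e
    ext v
    simpa using congrFun (congrArg Subtype.val e) v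
  · rintro ⟨f, hf⟩
    have hf' := mem_Col.1 hf
    refine ⟨SimpleGraph.Coloring.mk (fun v => ⟨f v, by simpa using hf'.1 v (mem_univ v)⟩)
      (fun {a b} hab e => hf'.2.2 a (mem_univ a) b (mem_univ b) hab (by simpa using e)), ?_⟩
    rfl

end Pool.Agent.MP_cb5fda_co

end MrgPart0

-- ======== part 1: formerly Pool.Agent.MP_cb5fda_co.Chrom
section MrgPart1

/-!
The chromatic polynomial of a graph restricted to a finite vertex set, evaluated at complex
points, with the recurrences used later.
-/

set_option autoImplicit false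

namespace Pool.Agent.MP_cb5fda_co

open Finset Polynomial

variable {V : Type} [Fintype V] [DecidableEq V]

lemma poly_ext {p q : ℂ[X]} (h : ∀ n : ℕ, p.eval ((n : ℂ) + 1) = q.eval ((n : ℂ) + 1)) :
    p = q := by
  apply eq_of_infinite_eval_eq
  refine Set.infinite_of_injective_forall_mem (f := fun n : ℕ => (n : ℂ) + 1) ?_ h
  intro a b e
  simpa using e

lemma card_Col_rec {s : Finset V} (G : SimpleGraph V) (C : Finset ℕ) {u : V} (hu : u ∈ s) :
    (Col s G C).card +
      ∑ x ∈ nb s G u, (Col (s.erase u) (G ⊔ star x (lo (nb s G u) x)) C).card =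
      C.card * (Col (s.erase u) G C).card := by
  have h1 := card_Col_erase G C hu
  have h2 := sum_image_union G C (F := ∅) (empty_subset _) (nb_subset_erase s G u)
    (disjoint_empty_left _)
  simp only [empty_union, image_empty, card_empty, sum_const_zero, zero_add] at h2
  rw [← h2, h1]

lemma exists_chrom (s : Finset V) : ∀ G : SimpleGraph V,
    ∃ P : ℂ[X], ∀ n : ℕ, P.eval (n : ℂ) = ((Col s G (range n)).card : ℂ) := by
  induction s using Finset.strongInduction with
  | H s ih =>
    intro G
    rcases s.eq_empty_or_nonempty with rfl | ⟨u, hu⟩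
    · exact ⟨1, fun n => by simp [card_Col_empty]⟩
    · have ih' := ih (s.erase u) (erase_ssubset hu)
      choose P hP using ih'
      refine ⟨X * P G - ∑ x ∈ nb s G u, P (G ⊔ star x (lo (nb s G u) x)), fun n => ?_⟩
      have h := congrArg (Nat.cast : ℕ → ℂ) (card_Col_rec G (range n) hu)
      push_cast at h
      simp only [eval_sub, eval_mul, eval_X, eval_finsetSum, hP]
      rw [card_range] at h
      rw [← h]; ring

/-- the chromatic polynomial of `G` restricted to `s` -/
noncomputable def chrom (s : Finset V) (G : SimpleGraph V) : ℂ[X] :=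
  Classical.choose (exists_chrom s G)

lemma chrom_eval (s : Finset V) (G : SimpleGraph V) (n : ℕ) :
    (chrom s G).eval (n : ℂ) = ((Col s G (range n)).card : ℂ) :=
  Classical.choose_spec (exists_chrom s G) n

lemma chrom_eval' (s : Finset V) (G : SimpleGraph V) (n : ℕ) :
    (chrom s G).eval ((n : ℂ) + 1) = ((Col s G (range (n + 1))).card : ℂ) := by
  rw [← chrom_eval]; push_cast; rfl

/-- value of the chromatic polynomial of `G` restricted to `s` -/
noncomputable def ch (s : Finset V) (G : SimpleGraph V) (q : ℂ) : ℂ := (chrom s G).eval q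

lemma ch_congr {s : Finset V} {G G' : SimpleGraph V}
    (h : ∀ a ∈ s, ∀ b ∈ s, G.Adj a b ↔ G'.Adj a b) (q : ℂ) : ch s G q = ch s G' q := by
  unfold ch
  rw [poly_ext (p := chrom s G) (q := chrom s G') fun n => by
    rw [chrom_eval', chrom_eval', Col_congr _ h]]

lemma ch_empty (G : SimpleGraph V) (q : ℂ) : ch ∅ G q = 1 := by
  unfold ch
  rw [poly_ext (p := chrom ∅ G) (q := 1) fun n => by
    rw [chrom_eval', card_Col_empty]; simp]
  simp

lemma ch_conj (s : Finset V) (G : SimpleGraph V) (q : ℂ) :
    ch s G ((starRingEnd ℂ) q) = (starRingEnd ℂ) (ch s G q) := by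
  unfold ch
  have h : chrom s G = (chrom s G).map (starRingEnd ℂ) := poly_ext fun n => by
    have e : ((n : ℂ) + 1) = (starRingEnd ℂ) ((n : ℂ) + 1) := by simp
    conv_rhs => rw [e, eval_map, eval₂_at_apply]
    rw [chrom_eval']; simp
  conv_lhs => rw [h, eval_map, eval₂_at_apply]

lemma ch_univ (G : SimpleGraph V) (P : ℂ[X])
    (hP : ∀ n : ℕ, P.eval (n : ℂ) = (Nat.card (G.Coloring (Fin n)) : ℂ)) (q : ℂ) :
    P.eval q = ch univ G q := by
  unfold ch
  rw [poly_ext (p := P) (q := chrom univ G) fun n => by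
    rw [chrom_eval', card_Col_univ, ← hP]; push_cast; rfl]

/-- weighted count of the colours seen on `D` and not on `F` -/
noncomputable def New (s : Finset V) (G : SimpleGraph V) (F D : Finset V) (q : ℂ) : ℂ :=
  ∑ x ∈ D, ch s (G ⊔ star x (F ∪ lo D x)) q

lemma New_split {s : Finset V} (G : SimpleGraph V) {F D : Finset V}
    (hF : F ⊆ s) (hD : D ⊆ s) (hFD : Disjoint F D) (q : ℂ) :
    New s G ∅ (F ∪ D) q = New s G ∅ F q + New s G F D q := by
  unfold New ch
  simp only [← eval_finsetSum, ← eval_add]
  congr 1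
  refine poly_ext fun n => ?_
  simp only [eval_finsetSum, eval_add, chrom_eval']
  have h1 := sum_image_union G (range (n + 1)) hF hD hFD
  have h2 := sum_image_union G (range (n + 1)) (F := ∅) (empty_subset _) hF
    (disjoint_empty_left _)
  have h3 := sum_image_union G (range (n + 1)) (F := ∅) (empty_subset _) (union_subset hF hD)
    (disjoint_empty_left _)
  simp only [empty_union, image_empty, card_empty, sum_const_zero, zero_add] at h2 h3 ⊢
  rw [h3, h2] at h1
  exact_mod_cast h1

/-- removing a vertex -/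
lemma ch_erase {s : Finset V} (G : SimpleGraph V) {u : V} (hu : u ∈ s) (q : ℂ) :
    ch s G q = q * ch (s.erase u) G q - New (s.erase u) G ∅ (nb s G u) q := by
  have h : chrom s G = X * chrom (s.erase u) G -
      ∑ x ∈ nb s G u, chrom (s.erase u) (G ⊔ star x (∅ ∪ lo (nb s G u) x)) := poly_ext fun n => by
    have h := congrArg (Nat.cast : ℕ → ℂ) (card_Col_rec G (range (n + 1)) hu)
    rw [card_range] at h
    push_cast at h
    simp only [eval_sub, eval_mul, eval_X, eval_finsetSum, chrom_eval', empty_union]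
    rw [← h]; ring
  unfold New ch
  rw [h]
  simp only [eval_sub, eval_mul, eval_X, eval_finsetSum]

/-- counting unused colours -/
lemma ch_unused (s : Finset V) (G : SimpleGraph V) (q : ℂ) :
    q * ch s G (q - 1) = q * ch s G q - New s G ∅ s q := by
  have h : X * (chrom s G).comp (X - 1) = X * chrom s G -
      ∑ x ∈ s, chrom s (G ⊔ star x (∅ ∪ lo s x)) := poly_ext fun n => by
    have h1 := card_Col_unused s G n
    have h2 := sum_image_union G (range (n + 1)) (F := ∅) (empty_subset _) (Subset.refl s)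
      (disjoint_empty_left _)
    simp only [empty_union, image_empty, card_empty, sum_const_zero, zero_add] at h2
    rw [h2] at h1
    have h := congrArg (Nat.cast : ℕ → ℂ) h1
    push_cast at h
    simp only [eval_sub, eval_mul, eval_X, eval_finsetSum, chrom_eval', empty_union, eval_comp,
      eval_one, add_sub_cancel_right, chrom_eval]
    rw [← h]; ring
  have := congrArg (eval q) h
  unfold New ch
  simpa only [eval_sub, eval_mul, eval_X, eval_finsetSum, eval_comp, eval_one] using this

/-- a vertex adjacent to all others -/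
lemma ch_universal {s : Finset V} (G : SimpleGraph V) {u : V} (hu : u ∈ s)
    (h : ∀ y ∈ s, y ≠ u → G.Adj u y) (q : ℂ) :
    ch s G q = q * ch (s.erase u) G (q - 1) := by
  have e : nb s G u = s.erase u := by
    ext y
    rw [mem_nb, mem_erase]
    exact ⟨fun h' => ⟨h'.2.ne', h'.1⟩, fun h' => ⟨h'.2, h y h'.2 h'.1⟩⟩
  rw [ch_erase G hu, e, ch_unused]

lemma New_congr {s : Finset V} {G G' : SimpleGraph V}
    (h : ∀ a ∈ s, ∀ b ∈ s, G.Adj a b ↔ G'.Adj a b) (F D : Finset V) (q : ℂ) :
    New s G F D q = New s G' F D q := by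
  unfold New
  refine sum_congr rfl fun x _ => ch_congr (fun a ha b hb => ?_) q
  simp only [SimpleGraph.sup_adj, h a ha b hb]

omit [Fintype V] in
lemma star_erase (G : SimpleGraph V) (s : Finset V) (u : V) (E : Finset V) :
    ∀ a ∈ s.erase u, ∀ b ∈ s.erase u, (G ⊔ star u E).Adj a b ↔ G.Adj a b := by
  intro a ha b hb
  rw [mem_erase] at ha hb
  simp [star_adj, ha.1, hb.1]

/-- adding edges at one vertex -/
lemma ch_addEdges {s : Finset V} (G : SimpleGraph V) {u : V} (hu : u ∈ s) {E : Finset V}
    (hE : E ⊆ s.erase u) (hd : Disjoint (nb s G u) E) (q : ℂ) :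
    ch s G q = ch s (G ⊔ star u E) q + New (s.erase u) G (nb s G u) E q := by
  have e : nb s (G ⊔ star u E) u = nb s G u ∪ E := by
    ext y
    rw [mem_union, mem_nb, mem_nb, SimpleGraph.sup_adj, star_adj]
    constructor
    · rintro ⟨hy, h | ⟨_, ⟨_, h⟩ | ⟨rfl, _⟩⟩⟩
      · exact Or.inl ⟨hy, h⟩
      · exact Or.inr h
      · simp_all
    · rintro (⟨hy, h⟩ | h)
      · exact ⟨hy, Or.inl h⟩
      · have := mem_erase.1 (hE h)
        exact ⟨this.2, Or.inr ⟨this.1.symm, Or.inl ⟨rfl, h⟩⟩⟩
  rw [ch_erase G hu, ch_erase (G ⊔ star u E) hu, e, ch_congr (star_erase G s u E),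
    New_congr (star_erase G s u E), New_split G (nb_subset_erase s G u) hE hd]
  ring

open Classical in
/-- the part of `E` that really adds edges at `u` -/
noncomputable def eff (s : Finset V) (G : SimpleGraph V) (u : V) (E : Finset V) : Finset V :=
  (s.erase u).filter fun y => y ∈ E ∧ ¬ G.Adj u y

omit [Fintype V] in
lemma mem_eff {s : Finset V} {G : SimpleGraph V} {u : V} {E : Finset V} {y : V} :
    y ∈ eff s G u E ↔ (y ≠ u ∧ y ∈ s) ∧ y ∈ E ∧ ¬ G.Adj u y := by
  simp [eff]

omit [Fintype V] in
lemma eff_subset (s : Finset V) (G : SimpleGraph V) (u : V) (E : Finset V) :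
    eff s G u E ⊆ s.erase u := by
  intro y hy
  exact mem_erase.2 (mem_eff.1 hy).1

omit [Fintype V] in
lemma eff_disj (s : Finset V) (G : SimpleGraph V) (u : V) (E : Finset V) :
    Disjoint (nb s G u) (eff s G u E) := by
  rw [disjoint_left]
  intro y hy hy'
  exact (mem_eff.1 hy').2.2 (mem_nb.1 hy).2

omit [Fintype V] in
lemma eff_adj (s : Finset V) (G : SimpleGraph V) (u : V) (E : Finset V) :
    ∀ a ∈ s, ∀ b ∈ s, (G ⊔ star u E).Adj a b ↔ (G ⊔ star u (eff s G u E)).Adj a b := by
  intro a ha b hb
  simp only [SimpleGraph.sup_adj, star_adj, mem_eff]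
  constructor
  · rintro (h | ⟨hne, ⟨rfl, h⟩ | ⟨rfl, h⟩⟩)
    · exact Or.inl h
    · by_cases h' : G.Adj a b
      · exact Or.inl h'
      · exact Or.inr ⟨hne, Or.inl ⟨rfl, ⟨hne.symm, hb⟩, h, h'⟩⟩
    · by_cases h' : G.Adj a b
      · exact Or.inl h'
      · exact Or.inr ⟨hne, Or.inr ⟨rfl, ⟨hne, ha⟩, h, fun h'' => h' h''.symm⟩⟩
  · rintro (h | ⟨hne, ⟨rfl, h⟩ | ⟨rfl, h⟩⟩)
    · exact Or.inl h
    · exact Or.inr ⟨hne, Or.inl ⟨rfl, h.2.1⟩⟩
    · exact Or.inr ⟨hne, Or.inr ⟨rfl, h.2.1⟩⟩

/-- adding an arbitrary star at `u` -/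
lemma ch_addStar {s : Finset V} (G : SimpleGraph V) {u : V} (hu : u ∈ s) (E : Finset V) (q : ℂ) :
    ch s G q = ch s (G ⊔ star u E) q + New (s.erase u) G (nb s G u) (eff s G u E) q := by
  rw [ch_congr (eff_adj s G u E)]
  exact ch_addEdges G hu (eff_subset s G u E) (eff_disj s G u E) q

/-- making `u` adjacent to everything -/
lemma ch_star_all {s : Finset V} (G : SimpleGraph V) {u : V} (hu : u ∈ s) (q : ℂ) :
    ch s (G ⊔ star u s) q = q * ch (s.erase u) G (q - 1) := by
  rw [ch_universal (G ⊔ star u s) hu, ch_congr (star_erase G s u s)]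
  intro y hy hne
  exact Or.inr (star_adj.2 ⟨hne.symm, Or.inl ⟨rfl, hy⟩⟩)

end Pool.Agent.MP_cb5fda_co

end MrgPart1

-- marker of a merged file
example : 731051 + 681260 = 731051 + 681260 := rfl
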