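import Mathlib.Tactic.SuppressCompilation
import Mathlib.RingTheory.Nilpotent.Basic
import Mathlib.Topology.Sheaves.Presheaf
import Mathlib.Tactic.Monotonicity.Lemmas
import Mathlib.Algebra.Order.Ring.Star
import Mathlib.Tactic.Bound
import Mathlib.Analysis.Complex.Exponential
import Mathlib.Algebra.Order.Star.Real
import Mathlib.Analysis.CStarAlgebra.Classes
import Mathlib.RingTheory.PiTensorProduct
import Mathlib.Tactic.Polynomial.Basic
import Pool.Agent.MP_cb5fda_co.Chrom

-- ======== part 0: formerly Pool.Agent.MP_cb5fda_co.Disc1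
section MrgPart0

/-!
The algebra of square-free polynomials in variables indexed by the vertices (each variable has
square zero), the independence polynomials of induced subgraphs and their ratios.
-/

set_option autoImplicit false

namespace Pool.Agent.MP_cb5fda_co.Disc

open Finset

/-- functions on finite vertex sets, multiplied by disjoint-union convolution -/
def A (V : Type) : Type := Finset V → ℂ

variable {V : Type} [DecidableEq V]

noncomputable instance : AddCommGroup (A V) := inferInstanceAs (AddCommGroup (Finset V → ℂ))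
noncomputable instance : Module ℂ (A V) := inferInstanceAs (Module ℂ (Finset V → ℂ))

/-- the value of an element at a set -/
def co (f : A V) (S : Finset V) : ℂ := f S

/-- an element from its values -/
def mk (f : Finset V → ℂ) : A V := f

omit [DecidableEq V] in
@[simp] lemma co_mk (f : Finset V → ℂ) (S : Finset V) : co (mk f) S = f S := rfl

omit [DecidableEq V] in
lemma ext {f g : A V} (h : ∀ S, co f S = co g S) : f = g := funext h

omit [DecidableEq V] in
@[simp] lemma co_add (f g : A V) (S : Finset V) : co (f + g) S = co f S + co g S := rfl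
omit [DecidableEq V] in
@[simp] lemma co_sub (f g : A V) (S : Finset V) : co (f - g) S = co f S - co g S := rfl
omit [DecidableEq V] in
@[simp] lemma co_neg (f : A V) (S : Finset V) : co (-f) S = -co f S := rfl
omit [DecidableEq V] in
@[simp] lemma co_zero (S : Finset V) : co (0 : A V) S = 0 := rfl
omit [DecidableEq V] in
@[simp] lemma co_smul (c : ℂ) (f : A V) (S : Finset V) : co (c • f) S = c * co f S := rfl

noncomputable instance : One (A V) := ⟨mk fun S => if S = ∅ then 1 else 0⟩
noncomputable instance : Mul (A V) :=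
  ⟨fun f g => mk fun S => ∑ T ∈ S.powerset, co f T * co g (S \ T)⟩

lemma co_one (S : Finset V) : co (1 : A V) S = if S = ∅ then 1 else 0 := rfl
lemma co_mul (f g : A V) (S : Finset V) :
    co (f * g) S = ∑ T ∈ S.powerset, co f T * co g (S \ T) := rfl

lemma mul_comm' (f g : A V) : f * g = g * f := by
  refine ext fun S => ?_
  rw [co_mul, co_mul]
  refine sum_bij' (fun T _ => S \ T) (fun T _ => S \ T) ?_ ?_ ?_ ?_ ?_
  · intro T _; simp
  · intro T _; simp
  · intro T hT; exact Finset.sdiff_sdiff_eq_self (mem_powerset.1 hT)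
  · intro T hT; exact Finset.sdiff_sdiff_eq_self (mem_powerset.1 hT)
  · intro T hT
    rw [Finset.sdiff_sdiff_eq_self (mem_powerset.1 hT), mul_comm]

lemma one_mul' (f : A V) : 1 * f = f := by
  refine ext fun S => ?_
  rw [co_mul, sum_eq_single ∅]
  · simp [co_one]
  · intro T _ hT; simp [co_one, hT]
  · intro h; simp at h

lemma mul_assoc' (f g h : A V) : f * g * h = f * (g * h) := by
  refine ext fun S => ?_
  simp only [co_mul, sum_mul, mul_sum]
  rw [sum_sigma', sum_sigma']
  refine sum_bij' (fun x _ => ⟨x.2, x.1 \ x.2⟩) (fun x _ => ⟨x.1 ∪ x.2, x.1⟩) ?_ ?_ ?_ ?_ ?_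
  · rintro ⟨T, U⟩ hx
    simp only [mem_sigma, mem_powerset] at hx ⊢
    exact ⟨hx.2.trans hx.1, sdiff_subset_sdiff hx.1 (Subset.refl _)⟩
  · rintro ⟨T, U⟩ hx
    simp only [mem_sigma, mem_powerset] at hx ⊢
    exact ⟨union_subset hx.1 (hx.2.trans sdiff_subset), subset_union_left⟩
  · rintro ⟨T, U⟩ hx
    simp only [mem_sigma, mem_powerset] at hx
    simp only [union_sdiff_of_subset hx.2]
  · rintro ⟨T, U⟩ hx
    simp only [mem_sigma, mem_powerset] at hx
    have : (T ∪ U) \ T = U := by
      ext v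
      simp only [mem_sdiff, mem_union]
      constructor
      · rintro ⟨h1 | h1, h2⟩
        · exact absurd h1 h2
        · exact h1
      · intro h1
        exact ⟨Or.inr h1, (mem_sdiff.1 (hx.2 h1)).2⟩
    simp only [this]
  · rintro ⟨T, U⟩ hx
    simp only [mem_sigma, mem_powerset] at hx
    have : (S \ U) \ (T \ U) = S \ T := by
      ext v
      simp only [mem_sdiff]
      constructor
      · rintro ⟨⟨h1, h2⟩, h3⟩
        exact ⟨h1, fun h4 => h3 ⟨h4, h2⟩⟩
      · rintro ⟨h1, h2⟩
        exact ⟨⟨h1, fun h3 => h2 (hx.2 h3)⟩, fun h3 => h2 h3.1⟩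
    simp only [this, mul_assoc]

noncomputable instance : CommRing (A V) where
  __ := (inferInstance : AddCommGroup (A V))
  mul_comm := mul_comm'
  mul_assoc := mul_assoc'
  one_mul := one_mul'
  mul_one f := by rw [mul_comm', one_mul']
  zero_mul f := ext fun S => by simp [co_mul]
  mul_zero f := ext fun S => by simp [co_mul]
  left_distrib f g h := ext fun S => by simp [co_mul, mul_add, sum_add_distrib]
  right_distrib f g h := ext fun S => by simp [co_mul, add_mul, sum_add_distrib]

lemma smul_mul' (c : ℂ) (f g : A V) : (c • f) * g = c • (f * g) :=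
  ext fun S => by simp [co_mul, mul_sum, mul_assoc]

lemma co_sum {ι : Type} (s : Finset ι) (f : ι → A V) (S : Finset V) :
    co (∑ i ∈ s, f i) S = ∑ i ∈ s, co (f i) S := by
  classical
  induction s using Finset.induction_on with
  | empty => simp
  | insert i s hi ih => rw [sum_insert hi, sum_insert hi, co_add, ih]

lemma co_natCast_mul (k : ℕ) (f : A V) (S : Finset V) : co ((k : A V) * f) S = k * co f S := by
  rw [← nsmul_eq_mul]
  induction k with
  | zero => simp
  | succ k ih => rw [succ_nsmul, co_add, ih]; push_cast; ring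

/-- the variable of a vertex -/
noncomputable def X (w : V) : A V := mk fun S => if S = {w} then 1 else 0

lemma co_X_mul (w : V) (f : A V) (S : Finset V) :
    co (X w * f) S = if w ∈ S then co f (S.erase w) else 0 := by
  rw [co_mul]
  split_ifs with h
  · rw [sum_eq_single {w}]
    · simp [X, sdiff_singleton_eq_erase]
    · intro T _ hT; simp [X, hT]
    · intro h'; simp [h] at h'
  · refine sum_eq_zero fun T hT => ?_
    have : T ≠ {w} := by
      rintro rfl
      exact h (by simpa using hT)
    simp [X, this]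

lemma X_mul_X (w : V) : X w * X w = 0 := by
  refine ext fun S => ?_
  rw [co_X_mul]
  split_ifs with h
  · have : S.erase w ≠ {w} := by
      intro e
      have : w ∈ S.erase w := by rw [e]; simp
      simp at this
    simp [X, this]
  · simp

/-- restriction to the subsets of `H` -/
noncomputable def res (H : Finset V) : A V →+* A V where
  toFun f := mk fun S => if S ⊆ H then co f S else 0
  map_one' := ext fun S => by
    simp only [co_mk, co_one]
    by_cases h : S = ∅
    · simp [h]
    · simp [h]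
  map_mul' f g := ext fun S => by
    simp only [co_mk, co_mul]
    split_ifs with h
    · refine sum_congr rfl fun T hT => ?_
      rw [if_pos ((mem_powerset.1 hT).trans h), if_pos (sdiff_subset.trans h)]
    · refine (sum_eq_zero fun T hT => ?_).symm
      by_cases h1 : T ⊆ H
      · have : ¬ S \ T ⊆ H := by
          intro h2
          apply h
          rw [← union_sdiff_of_subset (mem_powerset.1 hT)]
          exact union_subset h1 h2
        simp [this]
      · simp [h1]
  map_zero' := ext fun S => by simp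
  map_add' f g := ext fun S => by
    simp only [co_mk, co_add]
    split_ifs <;> simp

lemma co_res (H : Finset V) (f : A V) (S : Finset V) :
    co (res H f) S = if S ⊆ H then co f S else 0 := rfl

lemma co_pow_eq_zero {f : A V} (hf : co f ∅ = 0) (k : ℕ) :
    ∀ S : Finset V, S.card < k → co (f ^ k) S = 0 := by
  induction k with
  | zero => intro S hS; omega
  | succ k ih =>
    intro S hS
    rw [pow_succ', co_mul]
    refine sum_eq_zero fun T hT => ?_
    rcases T.eq_empty_or_nonempty with rfl | hne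
    · simp [hf]
    · rw [ih, mul_zero]
      have h1 := card_sdiff_of_subset (mem_powerset.1 hT)
      have h2 := hne.card_pos
      have h3 := card_le_card (mem_powerset.1 hT)
      omega

lemma isUnit_of [Fintype V] {f : A V} (hf : co f ∅ = 1) : IsUnit f := by
  have h : IsNilpotent (f - 1) := by
    refine ⟨Fintype.card V + 1, ext fun S => ?_⟩
    rw [co_pow_eq_zero (by simp [hf, co_one])]
    · simp
    · have := S.card_le_univ
      omega
  have := h.isUnit_add_one
  simpa using this

variable (G : SimpleGraph V)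

open Classical in
/-- the independence polynomial of the subgraph induced on `L` -/
noncomputable def I (L : Finset V) : A V :=
  mk fun S => if S ⊆ L ∧ ∀ a ∈ S, ∀ b ∈ S, ¬ G.Adj a b then 1 else 0

open Classical in
lemma co_I (L S : Finset V) :
    co (I G L) S = if S ⊆ L ∧ ∀ a ∈ S, ∀ b ∈ S, ¬ G.Adj a b then 1 else 0 := rfl

lemma res_I (H L : Finset V) : res H (I G L) = I G (L ∩ H) := by
  refine ext fun S => ?_
  rw [co_res, co_I, co_I]
  by_cases h1 : S ⊆ H
  · rw [if_pos h1]
    congr 1
    apply propext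
    rw [subset_inter_iff]
    tauto
  · rw [if_neg h1, if_neg]
    rw [subset_inter_iff]
    tauto

lemma I_empty : I G ∅ = 1 := by
  refine ext fun S => ?_
  rw [co_I, co_one]
  by_cases h : S = ∅
  · simp [h]
  · simp [h]

lemma I_rec {L N : Finset V} {w : V} (hw : w ∈ L) (hN : ∀ y ∈ L, y ∈ N ↔ G.Adj w y) :
    I G L = I G (L.erase w) + X w * I G (L.erase w \ N) := by
  refine ext fun S => ?_
  rw [co_add, co_X_mul, co_I, co_I]
  by_cases h : w ∈ S
  · have h1 : ¬ S ⊆ L.erase w := fun h' => by simpa using h' h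
    rw [if_pos h, co_I]
    simp only [h1, false_and, if_false, zero_add]
    congr 1
    apply propext
    constructor
    · rintro ⟨h2, h3⟩
      refine ⟨fun y hy => ?_, fun a ha b hb => h3 a (mem_of_mem_erase ha) b (mem_of_mem_erase hb)⟩
      have hy' := mem_erase.1 hy
      refine mem_sdiff.2 ⟨mem_erase.2 ⟨hy'.1, h2 hy'.2⟩, fun hyN => ?_⟩
      exact h3 w h y hy'.2 ((hN y (h2 hy'.2)).1 hyN)
    · rintro ⟨h2, h3⟩
      have h4 : ∀ y ∈ S, y ≠ w → y ∈ L ∧ ¬ G.Adj w y := by
        intro y hy hyw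
        have := mem_sdiff.1 (h2 (mem_erase.2 ⟨hyw, hy⟩))
        have hyL := mem_of_mem_erase this.1
        exact ⟨hyL, fun e => this.2 ((hN y hyL).2 e)⟩
      refine ⟨fun y hy => ?_, fun a ha b hb hab => ?_⟩
      · by_cases e : y = w
        · rw [e]; exact hw
        · exact (h4 y hy e).1
      · by_cases ea : a = w
        · subst ea
          exact (h4 b hb hab.ne.symm).2 hab
        · by_cases eb : b = w
          · subst eb
            exact (h4 a ha ea).2 hab.symm
          · exact h3 a (mem_erase.2 ⟨ea, ha⟩) b (mem_erase.2 ⟨eb, hb⟩) hab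
  · rw [if_neg h, add_zero]
    congr 1
    apply propext
    rw [subset_erase]
    tauto

variable [Fintype V]

/-- the inverse of the independence polynomial -/
noncomputable def J (L : Finset V) : A V := Ring.inverse (I G L)

lemma I_mul_J (L : Finset V) : I G L * J G L = 1 :=
  Ring.mul_inverse_cancel _ (isUnit_of (by simp [co_I]))

lemma J_unique {L : Finset V} {f : A V} (h : I G L * f = 1) : f = J G L := by
  calc f = f * (I G L * J G L) := by rw [I_mul_J, mul_one]
    _ = (I G L * f) * J G L := by ring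
    _ = J G L := by rw [h, one_mul]

lemma res_J (H L : Finset V) : res H (J G L) = J G (L ∩ H) := by
  apply J_unique
  rw [← res_I, ← map_mul, I_mul_J, map_one]

/-- a marker at `a` living on `L` -/
noncomputable def m (a : V) (L : Finset V) : A V := I G (L.erase a) * J G L

/-- the ratio for removing a set of vertices -/
noncomputable def U (N L : Finset V) : A V := I G (L \ N) * J G L

lemma m_of_not_mem {a : V} {L : Finset V} (h : a ∉ L) : m G a L = 1 := by
  rw [m, erase_eq_of_notMem h, I_mul_J]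

lemma res_m (H : Finset V) (a : V) (L : Finset V) : res H (m G a L) = m G a (L ∩ H) := by
  rw [m, map_mul, res_I, res_J, m, erase_inter]

lemma res_U (H N L : Finset V) : res H (U G N L) = U G N (L ∩ H) := by
  rw [U, map_mul, res_I, res_J, U, sdiff_inter_right_comm]

lemma U_empty (L : Finset V) : U G ∅ L = 1 := by rw [U, sdiff_empty, I_mul_J]

lemma U_insert (y : V) (N L : Finset V) : U G (insert y N) L = m G y (L \ N) * U G N L := by
  have h : L \ insert y N = (L \ N).erase y := by
    ext v; simp only [mem_sdiff, mem_insert, mem_erase]; tauto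
  rw [U, U, m, h]
  calc I G ((L \ N).erase y) * J G L
      = I G ((L \ N).erase y) * J G L * (I G (L \ N) * J G (L \ N)) := by rw [I_mul_J, mul_one]
    _ = _ := by ring

lemma I_rec' {L N : Finset V} {w : V} (hw : w ∈ L) (hN : ∀ y ∈ L, y ∈ N ↔ G.Adj w y) :
    I G L = I G (L.erase w) * (1 + X w * U G N (L.erase w)) := by
  rw [I_rec G hw hN, U]
  have := I_mul_J G (L.erase w)
  linear_combination (-(X w * I G (L.erase w \ N))) * this

lemma J_rec {L N : Finset V} {w : V} (hw : w ∈ L) (hN : ∀ y ∈ L, y ∈ N ↔ G.Adj w y) :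
    J G L = J G (L.erase w) * (1 - X w * U G N (L.erase w)) := by
  symm
  apply J_unique
  rw [I_rec' G hw hN]
  have h1 := I_mul_J G (L.erase w)
  have h2 := X_mul_X w
  linear_combination (1 - X w * X w * U G N (L.erase w) ^ 2) * h1 - U G N (L.erase w) ^ 2 * h2

/-- the coefficient of the variable of `w` in a marker, with the opposite sign -/
noncomputable def y (w : V) (N : Finset V) (a : V) (L : Finset V) : A V :=
  if w ∈ L then
    (if a = w then 1 else m G a (L.erase w) - m G a (L.erase w \ N)) * U G N (L.erase w)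
  else 0

lemma m_rec {L N : Finset V} {w : V} (hN : ∀ y ∈ L, y ∈ N ↔ G.Adj w y) (a : V) :
    m G a L = m G a (L.erase w) - X w * y G w N a L := by
  unfold y
  by_cases hw : w ∈ L
  · rw [if_pos hw]
    by_cases ha : a = w
    · subst ha
      rw [if_pos rfl, m_of_not_mem G (notMem_erase a L), m, J_rec G hw hN]
      have h1 := I_mul_J G (L.erase a)
      linear_combination (1 - X a * U G N (L.erase a)) * h1
    · rw [if_neg ha]
      have hw' : w ∈ L.erase a := mem_erase.2 ⟨Ne.symm ha, hw⟩
      have e1 : (L.erase a).erase w = (L.erase w).erase a := erase_right_comm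
      have e2 : (L.erase w).erase a \ N = (L.erase w \ N).erase a := by
        ext v; simp only [mem_sdiff, mem_erase]; tauto
      rw [m, J_rec G hw hN, I_rec G hw' (fun y hy => hN y (mem_of_mem_erase hy)), e1, e2]
      simp only [m, U]
      have h1 := I_mul_J G (L.erase w \ N)
      have h2 := X_mul_X w
      linear_combination (-(X w * I G ((L.erase w \ N).erase a) * J G (L.erase w))) * h1 -
        (I G ((L.erase w \ N).erase a) * J G (L.erase w) ^ 2 * I G (L.erase w \ N)) * h2
  · rw [if_neg hw, erase_eq_of_notMem hw]; ring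

lemma res_y {H : Finset V} {w : V} (N : Finset V) (a : V) {L : Finset V} (hL : L ⊆ H) :
    res (H.erase w) (y G w N a L) = y G w N a L := by
  have e1 : L.erase w ∩ H.erase w = L.erase w :=
    inter_eq_left.2 (erase_subset_erase w hL)
  have e2 : (L.erase w \ N) ∩ H.erase w = L.erase w \ N :=
    inter_eq_left.2 (sdiff_subset.trans (erase_subset_erase w hL))
  unfold y
  split_ifs
  · rw [map_mul, map_one, res_U, e1]
  · rw [map_mul, map_sub, res_U, res_m, res_m, e1, e2]
  · rw [map_zero]

end Pool.Agent.MP_cb5fda_co.Disc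

end MrgPart0

-- ======== part 1: formerly Pool.Agent.MP_cb5fda_co.Disc2
section MrgPart1

/-!
The chromatic polynomial as a coefficient of a power of the independence polynomial, and the
vertex removal rule for the weighted partition functions `Z`.
-/

set_option autoImplicit false

namespace Pool.Agent.MP_cb5fda_co.Disc

open Finset

variable {V : Type} [Fintype V] [DecidableEq V] (G : SimpleGraph V)

lemma card_fiber (S T : Finset V) (hT : T ⊆ S) (k : ℕ) :
    ((((Col S G (range (k + 1))).filter fun f => S.filter (fun v => f v = k) = T).card : ℕ) : ℂ) =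
      co (I G univ) T * ((Col (S \ T) G (range k)).card : ℂ) := by
  rw [co_I]
  split_ifs with h
  · rw [one_mul]
    congr 1
    refine card_bij' (fun f _ v => if v ∈ T then 0 else f v)
      (fun g _ v => if v ∈ T then k else g v) ?_ ?_ ?_ ?_
    · intro f hf
      obtain ⟨hf1, hf2⟩ := mem_filter.1 hf
      obtain ⟨h1, h2, h3⟩ := mem_Col.1 hf1
      refine mem_Col.2 ⟨fun v hv => ?_, fun v hv => ?_, fun a ha b hb hab => ?_⟩
      · have hv' := mem_sdiff.1 hv
        have h4 := mem_range.1 (h1 v hv'.1)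
        have h5 : f v ≠ k := fun e => hv'.2 (hf2 ▸ mem_filter.2 ⟨hv'.1, e⟩)
        simp only [hv'.2, if_false, mem_range]
        omega
      · by_cases hvT : v ∈ T
        · simp [hvT]
        · simp only [hvT, if_false]
          exact h2 v fun hvS => hv (mem_sdiff.2 ⟨hvS, hvT⟩)
      · have ha' := mem_sdiff.1 ha
        have hb' := mem_sdiff.1 hb
        simp only [ha'.2, hb'.2, if_false]
        exact h3 a ha'.1 b hb'.1 hab
    · intro g hg
      obtain ⟨h1, h2, h3⟩ := mem_Col.1 hg
      have h4 : ∀ v ∈ S, v ∉ T → g v < k := fun v hv hvT =>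
        mem_range.1 (h1 v (mem_sdiff.2 ⟨hv, hvT⟩))
      refine mem_filter.2 ⟨mem_Col.2 ⟨fun v hv => ?_, fun v hv => ?_, fun a ha b hb hab => ?_⟩, ?_⟩
      · by_cases hvT : v ∈ T
        · simp [hvT]
        · have := h4 v hv hvT
          simp only [hvT, if_false, mem_range]
          omega
      · have hvT : v ∉ T := fun e => hv (hT e)
        simp only [hvT, if_false]
        exact h2 v fun e => hv (mem_sdiff.1 e).1
      · by_cases haT : a ∈ T
        · by_cases hbT : b ∈ T
          · exact absurd hab (h.2 a haT b hbT)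
          · have := h4 b hb hbT
            simp only [haT, hbT, if_true, if_false]
            omega
        · by_cases hbT : b ∈ T
          · have := h4 a ha haT
            simp only [haT, hbT, if_true, if_false]
            omega
          · simp only [haT, hbT, if_false]
            exact h3 a (mem_sdiff.2 ⟨ha, haT⟩) b (mem_sdiff.2 ⟨hb, hbT⟩) hab
      · ext v
        simp only [mem_filter]
        by_cases hvT : v ∈ T
        · simp [hvT, hT hvT]
        · simp only [hvT, if_false, iff_false, not_and]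
          intro hv
          exact (h4 v hv hvT).ne
    · intro f hf
      obtain ⟨_, hf2⟩ := mem_filter.1 hf
      funext v
      by_cases hvT : v ∈ T
      · have : v ∈ S.filter (fun v => f v = k) := hf2.symm ▸ hvT
        simp [hvT, (mem_filter.1 this).2]
      · simp [hvT]
    · intro g hg
      obtain ⟨_, h2, _⟩ := mem_Col.1 hg
      funext v
      by_cases hvT : v ∈ T
      · simp only [hvT, if_true]
        exact (h2 v fun e => (mem_sdiff.1 e).2 hvT).symm
      · simp [hvT]
  · rw [zero_mul, Nat.cast_eq_zero, card_eq_zero, filter_eq_empty_iff]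
    intro f hf e
    apply h
    refine ⟨subset_univ _, fun a ha b hb hab => ?_⟩
    rw [← e] at ha hb
    have ha' := mem_filter.1 ha
    have hb' := mem_filter.1 hb
    exact (mem_Col.1 hf).2.2 a ha'.1 b hb'.1 hab (ha'.2.trans hb'.2.symm)

lemma co_I_pow (k : ℕ) : ∀ S : Finset V,
    co (I G univ ^ k) S = ((Col S G (range k)).card : ℂ) := by
  induction k with
  | zero =>
    intro S
    rw [pow_zero, co_one]
    split_ifs with h
    · rw [h, card_Col_empty]; simp
    · symm
      rw [Nat.cast_eq_zero, card_eq_zero, eq_empty_iff_forall_notMem]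
      intro f hf
      obtain ⟨v, hv⟩ := nonempty_iff_ne_empty.2 h
      simpa using (mem_Col.1 hf).1 v hv
  | succ k ih =>
    intro S
    rw [pow_succ', co_mul, card_eq_sum_card_fiberwise (f := fun f => S.filter (fun v => f v = k))
      (t := S.powerset) (fun f _ => mem_coe.2 (mem_powerset.2 (filter_subset _ _)))]
    push_cast
    refine sum_congr rfl fun T hT => ?_
    rw [ih, card_fiber G S T (mem_powerset.1 hT)]

/-- the chromatic polynomials of all induced subgraphs, evaluated at `q` -/
noncomputable def chi (q : ℂ) : A V := mk fun T => ch T G q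

/-- the weighted partition function -/
noncomputable def Z (q : ℂ) (H : Finset V) (F : A V) : ℂ := co (chi G q * F) H

lemma chi_nat (k : ℕ) : chi G (k : ℂ) = I G univ ^ k := by
  refine ext fun S => ?_
  rw [co_I_pow, chi, co_mk, ch, chrom_eval]

variable {G} (q : ℂ) (H : Finset V)

lemma Z_add (F F' : A V) : Z G q H (F + F') = Z G q H F + Z G q H F' := by
  rw [Z, mul_add, co_add]; rfl

lemma Z_sub (F F' : A V) : Z G q H (F - F') = Z G q H F - Z G q H F' := by
  rw [Z, mul_sub, co_sub]; rfl

lemma Z_zero : Z G q H 0 = 0 := by rw [Z, mul_zero, co_zero]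

lemma Z_sum {ι : Type} (s : Finset ι) (F : ι → A V) :
    Z G q H (∑ i ∈ s, F i) = ∑ i ∈ s, Z G q H (F i) := by
  rw [Z, mul_sum, co_sum]; rfl

lemma Z_one : Z G q H 1 = ch H G q := by rw [Z, mul_one]; rfl

lemma Z_res (F : A V) : Z G q H (res H F) = Z G q H F := by
  simp only [Z, co_mul]
  refine sum_congr rfl fun T _ => ?_
  rw [co_res, if_pos sdiff_subset]

lemma Z_X {w : V} (hw : w ∈ H) (F : A V) : Z G q H (X w * F) = Z G q (H.erase w) F := by
  rw [Z, mul_left_comm, co_X_mul, if_pos hw]; rfl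

lemma exists_poly (F : A V) : ∃ P : Polynomial ℂ, ∀ q : ℂ, Z G q H F = P.eval q := by
  refine ⟨∑ T ∈ H.powerset, chrom T G * Polynomial.C (co F (H \ T)), fun q => ?_⟩
  rw [Z, co_mul, Polynomial.eval_finsetSum]
  refine sum_congr rfl fun T _ => ?_
  simp [chi, ch]

omit [Fintype V] in
lemma one_add_pow' (w : V) (u : A V) (k : ℕ) : (1 + X w * u) ^ k = 1 + (k : A V) * (X w * u) := by
  induction k with
  | zero => simp
  | succ k ih =>
    rw [pow_succ, ih]
    push_cast
    have := X_mul_X w
    linear_combination ((k : A V) * u ^ 2) * this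

omit [Fintype V] in
lemma co_res_self (f : A V) (S : Finset V) : co (res S f) S = co f S := by
  rw [co_res, if_pos (Subset.refl _)]

lemma Z_free_nat {w : V} (hw : w ∈ H) {N : Finset V} (hN : ∀ y ∈ H, y ∈ N ↔ G.Adj w y)
    {F : A V} (hF : res (H.erase w) F = F) (k : ℕ) :
    Z G k H F = k * Z G k (H.erase w) (U G N (H.erase w) * F) := by
  have hF' : res H F = F := by
    rw [← hF]
    refine ext fun S => ?_
    rw [co_res, co_res]
    by_cases h : S ⊆ H.erase w
    · rw [if_pos h, if_pos (h.trans (erase_subset _ _))]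
    · rw [if_neg h]; simp
  have h0 : co (I G (H.erase w) ^ k * F) H = 0 := by
    have : I G (H.erase w) ^ k * F = res (H.erase w) (I G (H.erase w) ^ k * F) := by
      rw [map_mul, map_pow, res_I, inter_self, hF]
    rw [this, co_res, if_neg]
    intro h
    simpa using h hw
  rw [Z, Z, chi_nat, ← co_res_self, map_mul, map_pow, res_I, univ_inter, hF', I_rec' G hw hN,
    mul_pow, one_add_pow']
  have e : I G (H.erase w) ^ k * (1 + (k : A V) * (X w * U G N (H.erase w))) * F =
      I G (H.erase w) ^ k * F +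
        (k : A V) * (X w * (I G (H.erase w) ^ k * (U G N (H.erase w) * F))) := by ring
  rw [e, co_add, h0, zero_add, co_natCast_mul, co_X_mul, if_pos hw]
  congr 1
  rw [← co_res_self (I G univ ^ k * _), map_mul, map_mul, map_pow, res_I, univ_inter, res_U,
    inter_self, hF]

lemma Z_free {w : V} (hw : w ∈ H) {N : Finset V} (hN : ∀ y ∈ H, y ∈ N ↔ G.Adj w y)
    {F : A V} (hF : res (H.erase w) F = F) :
    Z G q H F = q * Z G q (H.erase w) (U G N (H.erase w) * F) := by
  obtain ⟨P1, h1⟩ := exists_poly (G := G) H F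
  obtain ⟨P2, h2⟩ := exists_poly (G := G) (H.erase w) (U G N (H.erase w) * F)
  have h : P1 = Polynomial.X * P2 := poly_ext fun n => by
    have := Z_free_nat H hw hN hF (n + 1)
    rw [h1, h2] at this
    push_cast at this
    rw [this]; simp
  rw [h1, h2, h]; simp

omit [Fintype V] in
lemma prod_sub_X {ι : Type} [DecidableEq ι] (w : V) (s : Finset ι) (u v : ι → A V) :
    ∏ i ∈ s, (u i - X w * v i) =
      ∏ i ∈ s, u i - X w * ∑ j ∈ s, v j * ∏ i ∈ s.erase j, u i := by
  induction s using Finset.induction_on with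
  | empty => simp
  | insert a s ha ih =>
    rw [prod_insert ha, prod_insert ha, ih, sum_insert ha, erase_insert ha]
    have e : ∑ j ∈ s, v j * ∏ i ∈ (insert a s).erase j, u i =
        u a * ∑ j ∈ s, v j * ∏ i ∈ s.erase j, u i := by
      rw [mul_sum]
      refine sum_congr rfl fun j hj => ?_
      have hja : a ≠ j := fun e => ha (e ▸ hj)
      rw [erase_insert_of_ne hja, prod_insert (fun h => ha (mem_of_mem_erase h))]
      ring
    rw [e]
    have := X_mul_X w
    linear_combination (v a * ∑ j ∈ s, v j * ∏ i ∈ s.erase j, u i) * this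

/-- the vertex removal rule for a product of markers -/
lemma Z_rec {w : V} (hw : w ∈ H) {N : Finset V} (hN : ∀ y ∈ H, y ∈ N ↔ G.Adj w y)
    {ι : Type} [DecidableEq ι] (s : Finset ι) (a : ι → V) (L : ι → Finset V)
    (hL : ∀ i ∈ s, L i ⊆ H) :
    Z G q H (∏ i ∈ s, m G (a i) (L i)) =
      q * Z G q (H.erase w) (U G N (H.erase w) * ∏ i ∈ s, m G (a i) ((L i).erase w)) -
        ∑ j ∈ s, Z G q (H.erase w)
          (y G w N (a j) (L j) * ∏ i ∈ s.erase j, m G (a i) ((L i).erase w)) := by
  have e : ∏ i ∈ s, m G (a i) (L i) =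
      ∏ i ∈ s, (m G (a i) ((L i).erase w) - X w * y G w N (a i) (L i)) :=
    prod_congr rfl fun i hi => m_rec G (fun z hz => hN z (hL i hi hz)) (a i)
  rw [e, prod_sub_X, Z_sub, Z_X q H hw, Z_sum, Z_free q H hw hN]
  rw [map_prod]
  refine prod_congr rfl fun i hi => ?_
  rw [res_m, inter_eq_left.2 (erase_subset_erase w (hL i hi))]

omit [Fintype V] in
lemma tele (f : Finset V → A V) (N L : Finset V) :
    ∃ g : V → Finset V, (∀ z, g z ⊆ L) ∧
      f L - f (L \ N) = ∑ z ∈ N, (f (g z) - f ((g z).erase z)) := by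
  induction N using Finset.induction_on with
  | empty => exact ⟨fun _ => L, fun _ => Subset.refl _, by simp⟩
  | insert z N hz ih =>
    obtain ⟨g, hg, e⟩ := ih
    refine ⟨Function.update g z (L \ N), fun x => ?_, ?_⟩
    · by_cases hx : x = z
      · rw [hx, Function.update_self]; exact sdiff_subset
      · rw [Function.update_of_ne hx]; exact hg x
    · have h : L \ insert z N = (L \ N).erase z := by
        ext v; simp only [mem_sdiff, mem_insert, mem_erase]; tauto
      have h2 : ∑ x ∈ N, (f (Function.update g z (L \ N) x) -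
          f ((Function.update g z (L \ N) x).erase x)) = ∑ x ∈ N, (f (g x) - f ((g x).erase x)) :=
        sum_congr rfl fun x hx => by
          rw [Function.update_of_ne (fun e : x = z => hz (e ▸ hx))]
      rw [sum_insert hz, Function.update_self, h2, ← e, h]
      ring

end Pool.Agent.MP_cb5fda_co.Disc

end MrgPart1

-- ======== part 2: formerly Pool.Agent.MP_cb5fda_co.Disc3
section MrgPart2

/-!
Products of markers, the two inductive statements (changing the living set of one marker, and
removing one vertex from the living sets of all markers) and the core estimate.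
-/

set_option autoImplicit false
set_option linter.unusedSectionVars false

namespace Pool.Agent.MP_cb5fda_co.Disc

open Finset

variable {V : Type} [Fintype V] [DecidableEq V] (G : SimpleGraph V) [DecidableRel G.Adj]

/-- two products of markers at the same vertices, all living inside `H` -/
inductive Rel (H : Finset V) : Multiset V → A V → A V → Prop
  | one : Rel H 0 1 1
  | cons {l : Multiset V} {E E' : A V} (z : V) (L L' : Finset V) :
      L ⊆ H → L' ⊆ H → Rel H l E E' → Rel H (z ::ₘ l) (m G z L * E) (m G z L' * E')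

/-- neighbours inside `H` -/
def nbr (H : Finset V) (w : V) : Finset V := H.filter (G.Adj w)

/-- degree plus number of markers is at most `D` -/
def Val (D : ℕ) (H : Finset V) (l : Multiset V) : Prop :=
  ∀ z ∈ H, (nbr G H z).card + l.count z ≤ D

/-- effect of changing the living set of one marker at `u` -/
def Kst (q : ℂ) (D : ℕ) (H : Finset V) (u : V) (η : ℝ) : Prop :=
  ∀ (l : Multiset V) (Φ : A V) (L L' : Finset V), Rel G H l Φ Φ → L ⊆ H → L' ⊆ H →
    Val G D H (u ::ₘ l) →
    ‖Z G q H (m G u L' * Φ) - Z G q H (m G u L * Φ)‖ ≤ η * ‖Z G q H (m G u L * Φ)‖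

/-- effect of removing `u` from the living set of one marker -/
def Tst (q : ℂ) (D : ℕ) (H : Finset V) (u : V) (t : V → ℝ) : Prop :=
  ∀ (a : V) (l : Multiset V) (Φ : A V) (L L' : Finset V), Rel G H l Φ Φ → L ⊆ H → L' ⊆ H →
    Val G D H (a ::ₘ l) → (nbr G H u).card + 1 ≤ D →
    ‖Z G q H ((m G a L' - m G a (L'.erase u)) * Φ)‖ ≤ t a * ‖Z G q H (m G a L * Φ)‖

/-- total weight over all markers -/
def Sst (D : ℕ) (H : Finset V) (u : V) (t : V → ℝ) (σ : ℝ) : Prop :=
  ∀ c : Multiset V, Val G D H c → (nbr G H u).card + c.count u + 1 ≤ D → (c.map t).sum ≤ σ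

variable {G}

section rel
omit [DecidableRel G.Adj]
variable {H : Finset V}

lemma Rel.left {l : Multiset V} {E E' : A V} (h : Rel G H l E E') : Rel G H l E E := by
  induction h with
  | one => exact Rel.one
  | cons z L L' h1 _ _ ih => exact Rel.cons z L L h1 h1 ih

lemma Rel.right {l : Multiset V} {E E' : A V} (h : Rel G H l E E') : Rel G H l E' E' := by
  induction h with
  | one => exact Rel.one
  | cons z L L' _ h2 _ ih => exact Rel.cons z L' L' h2 h2 ih

lemma Rel.mul {l1 l2 : Multiset V} {E1 E1' E2 E2' : A V} (h1 : Rel G H l1 E1 E1')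
    (h2 : Rel G H l2 E2 E2') : Rel G H (l1 + l2) (E1 * E2) (E1' * E2') := by
  induction h1 with
  | one => simpa using h2
  | cons z L L' a b _ ih =>
    rw [Multiset.cons_add, mul_assoc, mul_assoc]
    exact Rel.cons z L L' a b ih

lemma Rel.single (z : V) {L : Finset V} (hL : L ⊆ H) : Rel G H {z} (m G z L) (m G z L) := by
  simpa using Rel.cons (G := G) z L L hL hL Rel.one

lemma Rel.fam {ι : Type} [DecidableEq ι] (s : Finset ι) (a : ι → V) (L : ι → Finset V)
    (hL : ∀ i ∈ s, L i ⊆ H) :
    Rel G H (s.val.map a) (∏ i ∈ s, m G (a i) (L i)) (∏ i ∈ s, m G (a i) (L i)) := by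
  induction s using Finset.induction_on with
  | empty => simpa using Rel.one
  | insert i s hi ih =>
    rw [prod_insert hi, insert_val_of_notMem hi, Multiset.map_cons]
    exact Rel.cons _ _ _ (hL i (mem_insert_self _ _)) (hL i (mem_insert_self _ _))
      (ih fun j hj => hL j (mem_insert_of_mem hj))

lemma Rel.toFam {l : Multiset V} {E E' : A V} (h : Rel G H l E E') :
    ∃ (ι : Type) (_ : DecidableEq ι) (s : Finset ι) (a : ι → V) (L : ι → Finset V),
      (∀ i ∈ s, L i ⊆ H) ∧ E = ∏ i ∈ s, m G (a i) (L i) ∧ l = s.val.map a := by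
  induction h with
  | one => exact ⟨Empty, inferInstance, ∅, Empty.elim, Empty.elim, by simp, by simp, by simp⟩
  | cons z L L' h1 _ _ ih =>
    obtain ⟨ι, _, s, a, M, hM, e1, e2⟩ := ih
    refine ⟨Option ι, inferInstance, insertNone s, fun o => o.elim z a, fun o => o.elim L M,
      ?_, ?_, ?_⟩
    · intro o ho
      cases o with
      | none => exact h1
      | some i => exact hM i (by simpa using ho)
    · rw [prod_insertNone, e1]; rfl
    · rw [e2]
      simp [insertNone, Multiset.map_map]

lemma Rel.res {l : Multiset V} {E E' : A V} (h : Rel G H l E E') (w : V) :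
    Rel G (H.erase w) l (res (H.erase w) E) (res (H.erase w) E') := by
  induction h with
  | one => simpa using Rel.one
  | cons z L L' _ _ _ ih =>
    rw [map_mul, map_mul, res_m, res_m]
    exact Rel.cons z _ _ inter_subset_right inter_subset_right ih

lemma Rel.U (N : Finset V) {L L' : Finset V} (h : L ⊆ H) (h' : L' ⊆ H) :
    Rel G H N.val (U G N L) (U G N L') := by
  induction N using Finset.induction_on with
  | empty => simpa [U_empty] using Rel.one
  | insert z N hz ih =>
    rw [U_insert, U_insert, insert_val_of_notMem hz]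
    exact Rel.cons z _ _ (sdiff_subset.trans h) (sdiff_subset.trans h') ih

end rel

lemma mem_nbr {H : Finset V} {w : V} : ∀ z ∈ H, z ∈ nbr G H w ↔ G.Adj w z := fun z hz => by
  simp [nbr, hz]

lemma card_nbr_erase {H : Finset V} {w z : V} (hw : w ∈ H) (hz : z ∈ H.erase w) :
    (nbr G (H.erase w) z).card + (nbr G H w).val.count z = (nbr G H z).card := by
  have hz' := mem_of_mem_erase hz
  have e : nbr G (H.erase w) z = (nbr G H z).erase w := by
    ext v; simp only [nbr, mem_filter, mem_erase]; tauto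
  rw [e]
  by_cases h : G.Adj w z
  · have h1 : w ∈ nbr G H z := (mem_nbr w hw).2 h.symm
    have h2 : z ∈ (nbr G H w).val := (mem_nbr z hz').2 h
    rw [Multiset.count_eq_one_of_mem (nbr G H w).nodup h2, card_erase_add_one h1]
  · have h1 : w ∉ nbr G H z := fun e => h ((mem_nbr w hw).1 e).symm
    have h2 : z ∉ (nbr G H w).val := fun e => h ((mem_nbr z hz').1 e)
    rw [Multiset.count_eq_zero_of_notMem h2, erase_eq_of_notMem h1, add_zero]

lemma Val.erase {D : ℕ} {H : Finset V} {l : Multiset V} (h : Val G D H l) {w : V} (hw : w ∈ H) :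
    Val G D (H.erase w) ((nbr G H w).val + l) := by
  intro z hz
  have h1 := h z (mem_of_mem_erase hz)
  have h2 := card_nbr_erase (G := G) hw hz
  rw [Multiset.count_add]
  omega

lemma Val.congr {D : ℕ} {H : Finset V} {l l' : Multiset V} (h : Val G D H l) (e : l = l') :
    Val G D H l' := e ▸ h

lemma one_le_prod {η : V → ℝ} (hη : ∀ z, 0 ≤ η z) (l : Multiset V) :
    1 ≤ (l.map fun z => 1 + η z).prod := by
  induction l using Multiset.induction_on with
  | empty => simp
  | cons z l ih =>
    rw [Multiset.map_cons, Multiset.prod_cons]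
    nlinarith [hη z]

lemma Val.mono {D : ℕ} {H : Finset V} {l l' : Multiset V} (h : Val G D H l) (e : l' ≤ l) :
    Val G D H l' := fun z hz => by
  have h1 := h z hz
  have h2 := Multiset.count_le_of_le z e
  omega

variable {q : ℂ} {D : ℕ} {H : Finset V} {η σ : V → ℝ} {t : V → V → ℝ}

/-- changing the living sets of several markers -/
lemma multi (hK : ∀ z, Kst G q D H z (η z)) (hη : ∀ z, 0 ≤ η z) {l : Multiset V} {E E' : A V}
    (h : Rel G H l E E') : ∀ (l0 : Multiset V) (Φ : A V), Rel G H l0 Φ Φ → Val G D H (l0 + l) →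
      ‖Z G q H (Φ * E') - Z G q H (Φ * E)‖ ≤
        ((l.map fun z => 1 + η z).prod - 1) * ‖Z G q H (Φ * E)‖ := by
  induction h with
  | one => intro l0 Φ _ _; simp
  | @cons l E E' z L L' h1 h2 h3 ih =>
    intro l0 Φ hΦ hV
    have a1 := ih (l0 + {z}) (Φ * m G z L') (hΦ.mul (Rel.single z h2))
      (hV.congr (by rw [add_assoc, Multiset.singleton_add]))
    have a2 := hK z (l0 + l) (Φ * E) L L' (hΦ.mul h3.left) h1 h2
      (hV.congr (by rw [Multiset.add_cons]))
    rw [Multiset.map_cons, Multiset.prod_cons]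
    have e1 : Φ * (m G z L' * E') = Φ * m G z L' * E' := by ring
    have e2 : Φ * (m G z L * E) = m G z L * (Φ * E) := by ring
    have e3 : Φ * m G z L' * E = m G z L' * (Φ * E) := by ring
    rw [e1, e2]
    rw [e3] at a1
    have hκ := one_le_prod hη l
    set κ := (l.map fun z => 1 + η z).prod
    set x := Z G q H (Φ * m G z L' * E')
    set u := Z G q H (m G z L' * (Φ * E))
    set v := Z G q H (m G z L * (Φ * E))
    have b1 : ‖x - v‖ ≤ ‖x - u‖ + ‖u - v‖ := norm_sub_le_norm_sub_add_norm_sub x u v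
    have b2 : ‖u‖ ≤ ‖v‖ + ‖u - v‖ := by
      simpa using norm_add_le v (u - v)
    have b3 : (κ - 1) * ‖u‖ ≤ (κ - 1) * ((1 + η z) * ‖v‖) :=
      mul_le_mul_of_nonneg_left (by linarith) (by linarith)
    nlinarith

lemma multi' (hK : ∀ z, Kst G q D H z (η z)) (hη : ∀ z, 0 ≤ η z) {l : Multiset V} {E E' : A V}
    (h : Rel G H l E E') (l0 : Multiset V) (Φ : A V) (hΦ : Rel G H l0 Φ Φ)
    (hV : Val G D H (l0 + l)) :
    ‖Z G q H (Φ * E')‖ ≤ (l.map fun z => 1 + η z).prod * ‖Z G q H (Φ * E)‖ := by
  have h1 := multi hK hη h l0 Φ hΦ hV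
  have h2 : ‖Z G q H (Φ * E')‖ ≤ ‖Z G q H (Φ * E)‖ + ‖Z G q H (Φ * E') - Z G q H (Φ * E)‖ := by
    simpa using norm_add_le (Z G q H (Φ * E)) (Z G q H (Φ * E') - Z G q H (Φ * E))
  linarith

lemma sum_weight (w : V) (N : Finset V) (t : V → V → ℝ) (c : Multiset V) :
    (c.map fun a => (if a = w then (1 : ℝ) else 0) + ∑ z ∈ N, t z a).sum =
      c.count w + ∑ z ∈ N, (c.map (t z)).sum := by
  induction c using Multiset.induction_on with
  | empty => simp
  | cons a c ih =>
    simp only [Multiset.map_cons, Multiset.sum_cons, ih, Multiset.count_cons, sum_add_distrib]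
    by_cases h : a = w
    · simp only [h, if_true]; push_cast; ring
    · simp only [h, Ne.symm h, if_false]; push_cast; ring

lemma nbr_bound {w : V} (hw : w ∈ H) {l : Multiset V} (hV : Val G D H l) {z : V}
    (hz : z ∈ nbr G H w) : (nbr G (H.erase w) z).card + l.count z + 1 ≤ D := by
  have hzH : z ∈ H := (mem_filter.1 hz).1
  have hz' : z ∈ H.erase w := mem_erase.2 ⟨((mem_nbr z hzH).1 hz).ne.symm, hzH⟩
  have h2 := hV.erase hw z hz'
  rw [Multiset.count_add, Multiset.count_eq_one_of_mem (nbr G H w).nodup hz] at h2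
  omega

/-- the core estimate -/
lemma core {w : V} (hw : w ∈ H) (hK : ∀ z, Kst G q D (H.erase w) z (η z))
    (hT : ∀ z, Tst G q D (H.erase w) z (t z)) (hη : ∀ z, 0 ≤ η z) (ht : ∀ z a, 0 ≤ t z a)
    (a : V) (l : Multiset V) (Φ : A V) (L L' : Finset V) (hΦ : Rel G (H.erase w) l Φ Φ)
    (hL : L ⊆ H.erase w) (hL' : L' ⊆ H) (hV : Val G D H (a ::ₘ l)) :
    ‖Z G q (H.erase w) (y G w (nbr G H w) a L' * Φ)‖ ≤
      (∏ z ∈ nbr G H w, (1 + η z)) * ((if a = w then (1 : ℝ) else 0) + ∑ z ∈ nbr G H w, t z a) *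
        ‖Z G q (H.erase w) (U G (nbr G H w) (H.erase w) * (m G a L * Φ))‖ := by
  set N := nbr G H w with hN
  set H' := H.erase w with hH'
  set κ := ∏ z ∈ N, (1 + η z) with hκ
  have hLw' : L'.erase w ⊆ H' := erase_subset_erase w hL'
  have hV' : Val G D H' ((a ::ₘ l) + N.val) := (hV.erase hw).congr (add_comm _ _)
  have hκ1 : 1 ≤ κ := one_le_prod hη N.val
  have h1 : ‖Z G q H' (m G a L * Φ * U G N (L'.erase w))‖ ≤
      κ * ‖Z G q H' (m G a L * Φ * U G N H')‖ :=
    multi' hK hη (Rel.U N (Subset.refl _) hLw') _ _ (Rel.cons a L L hL hL hΦ) hV'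
  rw [mul_comm (U G N H')]
  set ρ := ‖Z G q H' (m G a L * Φ * U G N H')‖ with hρ
  have hρ0 : 0 ≤ ρ := norm_nonneg _
  have ht0 : 0 ≤ ∑ z ∈ N, t z a := sum_nonneg fun z _ => ht z a
  unfold y
  by_cases hwj : w ∈ L'
  · rw [if_pos hwj]
    by_cases haj : a = w
    · have e : m G a L = 1 := m_of_not_mem G fun h => by simpa [haj, hH'] using hL h
      rw [if_pos haj, if_pos haj, one_mul, mul_comm (U G N _)]
      rw [e, one_mul] at h1
      have : 0 ≤ κ * (∑ z ∈ N, t z a) * ρ := by positivity
      nlinarith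
    · obtain ⟨g, hg, eg⟩ := tele (m G a) N (L'.erase w)
      rw [if_neg haj, if_neg haj, zero_add, eg, sum_mul, sum_mul, Z_sum, mul_sum, sum_mul]
      refine (norm_sum_le _ _).trans (sum_le_sum fun z hz => ?_)
      have h2 := hT z a (l + N.val) (Φ * U G N (L'.erase w)) L (g z)
        (hΦ.mul (Rel.U N hLw' hLw')) hL ((hg z).trans hLw')
        (hV'.congr (by rw [Multiset.cons_add])) (by have := nbr_bound hw hV hz; rw [← hH'] at this; omega)
      have e1 : (m G a (g z) - m G a ((g z).erase z)) * U G N (L'.erase w) * Φ =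
        (m G a (g z) - m G a ((g z).erase z)) * (Φ * U G N (L'.erase w)) := by ring
      rw [e1]
      rw [← mul_assoc (m G a L)] at h2
      calc _ ≤ _ := h2
        _ ≤ t z a * (κ * ρ) := mul_le_mul_of_nonneg_left h1 (ht z a)
        _ = _ := by ring
  · rw [if_neg hwj, zero_mul, Z_zero, norm_zero]
    have : 0 ≤ (if a = w then (1 : ℝ) else 0) := by split_ifs <;> norm_num
    positivity

lemma res_m_erase {w : V} (a : V) {L : Finset V} (hL : L ⊆ H) :
    res (H.erase w) (m G a L) = m G a (L.erase w) := by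
  rw [res_m]
  congr 1
  ext v
  simp only [mem_inter, mem_erase]
  exact ⟨fun h => ⟨h.2.1, h.1⟩, fun h => ⟨h.2, h.1, hL h.2⟩⟩

/-- lower bound for the partition function against the reference -/
lemma lower {w : V} (hw : w ∈ H) (hK : ∀ z, Kst G q D (H.erase w) z (η z))
    (hT : ∀ z, Tst G q D (H.erase w) z (t z)) (hS : ∀ z, Sst G D (H.erase w) z (t z) (σ z))
    (hη : ∀ z, 0 ≤ η z) (ht : ∀ z a, 0 ≤ t z a)
    {l : Multiset V} {F : A V} (hF : Rel G H l F F) (hV : Val G D H l) :
    (‖q‖ - (∏ z ∈ nbr G H w, (1 + η z)) * (l.count w + ∑ z ∈ nbr G H w, σ z)) *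
      ‖Z G q (H.erase w) (U G (nbr G H w) (H.erase w) * res (H.erase w) F)‖ ≤ ‖Z G q H F‖ := by
  obtain ⟨ι, _, s, a, L, hL, e1, e2⟩ := hF.toFam
  have e3 : res (H.erase w) F = ∏ i ∈ s, m G (a i) ((L i).erase w) := by
    rw [e1, map_prod]
    exact prod_congr rfl fun i hi => res_m_erase _ (hL i hi)
  have h2 := Z_rec q H hw (mem_nbr (G := G)) s a L hL
  rw [← e1, ← e3] at h2
  set κ := ∏ z ∈ nbr G H w, (1 + η z) with hκ
  set ρ := ‖Z G q (H.erase w) (U G (nbr G H w) (H.erase w) * res (H.erase w) F)‖ with hρ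
  have hκ1 : 1 ≤ κ := one_le_prod hη (nbr G H w).val
  have hρ0 : 0 ≤ ρ := norm_nonneg _
  have h1 : ∀ j ∈ s, ‖Z G q (H.erase w)
      (y G w (nbr G H w) (a j) (L j) * ∏ i ∈ s.erase j, m G (a i) ((L i).erase w))‖ ≤
      κ * ((if a j = w then (1 : ℝ) else 0) + ∑ z ∈ nbr G H w, t z (a j)) * ρ := by
    intro j hj
    have h := core hw hK hT hη ht (a j) ((s.erase j).val.map a) _ ((L j).erase w) (L j)
      (Rel.fam (s.erase j) a (fun i => (L i).erase w)
        fun i hi => erase_subset_erase w (hL i (mem_of_mem_erase hi)))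
      (erase_subset_erase w (hL j hj)) (hL j hj)
      (hV.congr (by rw [e2, ← Multiset.map_cons, erase_val, Multiset.cons_erase hj]))
    rwa [mul_prod_erase s (fun i => m G (a i) ((L i).erase w)) hj, ← e3] at h
  have h5 : ∑ j ∈ s, ((if a j = w then (1 : ℝ) else 0) + ∑ z ∈ nbr G H w, t z (a j)) ≤
      l.count w + ∑ z ∈ nbr G H w, σ z := by
    have h6 := sum_weight w (nbr G H w) t l
    have h7 : ∑ z ∈ nbr G H w, (l.map (t z)).sum ≤ ∑ z ∈ nbr G H w, σ z :=
      sum_le_sum fun z hz => hS z l ((hV.erase hw).mono (Multiset.le_add_left _ _))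
        (nbr_bound hw hV hz)
    have h8 : (l.map fun a => (if a = w then (1 : ℝ) else 0) + ∑ z ∈ nbr G H w, t z a).sum =
        ∑ j ∈ s, ((if a j = w then (1 : ℝ) else 0) + ∑ z ∈ nbr G H w, t z (a j)) := by
      rw [e2, Multiset.map_map]; rfl
    linarith
  have h3 := norm_sub_norm_le (q * Z G q (H.erase w) (U G (nbr G H w) (H.erase w) *
    res (H.erase w) F)) (∑ j ∈ s, Z G q (H.erase w)
      (y G w (nbr G H w) (a j) (L j) * ∏ i ∈ s.erase j, m G (a i) ((L i).erase w)))
  have h4 := (norm_sum_le s _).trans (sum_le_sum h1)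
  rw [← sum_mul, ← mul_sum] at h4
  rw [norm_mul, ← h2] at h3
  have h9 := mul_le_mul_of_nonneg_right (mul_le_mul_of_nonneg_left h5 (by linarith : 0 ≤ κ)) hρ0
  linarith

end Pool.Agent.MP_cb5fda_co.Disc

end MrgPart2

-- ======== part 3: formerly Pool.Agent.MP_cb5fda_co.Disc4
section MrgPart3

/-!
The inductive step, the numerical inequalities, and the zero-free region.
-/

set_option autoImplicit false
set_option linter.unusedSectionVars false

namespace Pool.Agent.MP_cb5fda_co.Disc

open Finset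

variable {V : Type} [Fintype V] [DecidableEq V] {G : SimpleGraph V} [DecidableRel G.Adj]
variable {q : ℂ} {D : ℕ} {H : Finset V} {η σ : V → ℝ} {t : V → V → ℝ}

lemma lower' {w : V} (hw : w ∈ H) (hK : ∀ z, Kst G q D (H.erase w) z (η z))
    (hT : ∀ z, Tst G q D (H.erase w) z (t z)) (hS : ∀ z, Sst G D (H.erase w) z (t z) (σ z))
    (hη : ∀ z, 0 ≤ η z) (ht : ∀ z a, 0 ≤ t z a)
    {l : Multiset V} {F : A V} (hF : Rel G H l F F) (hV : Val G D H l) :
    (‖q‖ - (∏ z ∈ nbr G H w, (1 + η z)) * (D - (nbr G H w).card + ∑ z ∈ nbr G H w, σ z)) *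
      ‖Z G q (H.erase w) (U G (nbr G H w) (H.erase w) * res (H.erase w) F)‖ ≤ ‖Z G q H F‖ := by
  refine le_trans (mul_le_mul_of_nonneg_right ?_ (norm_nonneg _))
    (lower hw hK hT hS hη ht hF hV)
  have h1 : ((nbr G H w).card : ℝ) + l.count w ≤ D := by exact_mod_cast hV w hw
  have hκ1 : 1 ≤ ∏ z ∈ nbr G H w, (1 + η z) := one_le_prod hη (nbr G H w).val
  nlinarith

lemma stepT {w : V} (hw : w ∈ H) (hK : ∀ z, Kst G q D (H.erase w) z (η z))
    (hT : ∀ z, Tst G q D (H.erase w) z (t z)) (hS : ∀ z, Sst G D (H.erase w) z (t z) (σ z))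
    (hη : ∀ z, 0 ≤ η z) (ht : ∀ z a, 0 ≤ t z a) {e : ℝ} (he0 : 0 ≤ e)
    (he : ∏ z ∈ nbr G H w, (1 + η z) ≤ e * (‖q‖ - (∏ z ∈ nbr G H w, (1 + η z)) *
      (D - (nbr G H w).card + ∑ z ∈ nbr G H w, σ z))) :
    Tst G q D H w fun a => e * ((if a = w then (1 : ℝ) else 0) + ∑ z ∈ nbr G H w, t z a) := by
  intro a l Φ L L' hΦ hL hL' hV _
  have e1 : (m G a L' - m G a (L'.erase w)) * Φ = 0 - X w * (y G w (nbr G H w) a L' * Φ) := by
    rw [m_rec G (N := nbr G H w) (w := w) (fun z hz => mem_nbr z (hL' hz)) a]; ring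
  rw [e1, Z_sub, Z_zero, zero_sub, norm_neg, Z_X q H hw, ← Z_res, map_mul, res_y G _ a hL']
  have h1 := core hw hK hT hη ht a l _ (L.erase w) L' (hΦ.res w) (erase_subset_erase w hL) hL' hV
  have h2 := lower' hw hK hT hS hη ht (Rel.cons a L L hL hL hΦ) hV
  rw [map_mul, res_m_erase a hL] at h2
  have h0 : 0 ≤ (if a = w then (1 : ℝ) else 0) + ∑ z ∈ nbr G H w, t z a := by
    have : 0 ≤ (if a = w then (1 : ℝ) else 0) := by split_ifs <;> norm_num
    have : 0 ≤ ∑ z ∈ nbr G H w, t z a := sum_nonneg fun z _ => ht z a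
    linarith
  set τ := (if a = w then (1 : ℝ) else 0) + ∑ z ∈ nbr G H w, t z a
  set ρ := ‖Z G q (H.erase w) (U G (nbr G H w) (H.erase w) *
    (m G a (L.erase w) * res (H.erase w) Φ))‖
  have hρ : 0 ≤ ρ := norm_nonneg _
  have h3 := mul_le_mul_of_nonneg_right he (mul_nonneg h0 hρ)
  have h4 := mul_le_mul_of_nonneg_left h2 (mul_nonneg he0 h0)
  beta_reduce
  linarith

lemma stepS {w : V} (hw : w ∈ H) (hS : ∀ z, Sst G D (H.erase w) z (t z) (σ z)) {e s : ℝ}
    (he0 : 0 ≤ e) (hs : e * (D - 1 - (nbr G H w).card + ∑ z ∈ nbr G H w, σ z) ≤ s) :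
    Sst G D H w (fun a => e * ((if a = w then (1 : ℝ) else 0) + ∑ z ∈ nbr G H w, t z a)) s := by
  intro c hV hc
  rw [Multiset.sum_map_mul_left, sum_weight]
  have h7 : ∑ z ∈ nbr G H w, (c.map (t z)).sum ≤ ∑ z ∈ nbr G H w, σ z :=
    sum_le_sum fun z hz => hS z c ((hV.erase hw).mono (Multiset.le_add_left _ _))
      (nbr_bound hw hV hz)
  have h1 : ((nbr G H w).card : ℝ) + c.count w + 1 ≤ D := by exact_mod_cast hc
  exact le_trans (mul_le_mul_of_nonneg_left (by linarith) he0) hs

lemma stepK {w : V} (hw : w ∈ H) (hK : ∀ z, Kst G q D (H.erase w) z (η z))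
    (hT : ∀ z, Tst G q D (H.erase w) z (t z)) (hS : ∀ z, Sst G D (H.erase w) z (t z) (σ z))
    (hη : ∀ z, 0 ≤ η z) (ht : ∀ z a, 0 ≤ t z a) {e : ℝ} (he0 : 0 ≤ e)
    (h2 : ∏ z ∈ nbr G H w, (1 + η z) ≤ 2)
    (he : ∏ z ∈ nbr G H w, (1 + η z) ≤ e * (‖q‖ - (∏ z ∈ nbr G H w, (1 + η z)) *
      (D - (nbr G H w).card + ∑ z ∈ nbr G H w, σ z))) :
    Kst G q D H w e := by
  intro l Φ L L' hΦ hL hL' hV
  have hl := lower' hw hK hT hS hη ht (Rel.cons w L L hL hL hΦ) hV
  rw [map_mul, res_m_erase w hL, m_of_not_mem G (notMem_erase w L), one_mul,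
    mul_comm (U G _ _)] at hl
  set N := nbr G H w with hN
  set κ := ∏ z ∈ N, (1 + η z) with hκ
  have hκ1 : 1 ≤ κ := one_le_prod hη N.val
  set r := Z G q (H.erase w) (res (H.erase w) Φ * U G N (H.erase w)) with hr
  have hV' : Val G D (H.erase w) (l + N.val) :=
    ((hV.mono (Multiset.le_cons_self _ _)).erase hw).congr (add_comm _ _)
  have key : ∀ M : Finset V, M ⊆ H → ∃ x : ℂ, (x = 0 ∨ ‖x - r‖ ≤ (κ - 1) * ‖r‖) ∧
      Z G q H (m G w M * Φ) = Z G q H Φ - x := by
    intro M hM
    refine ⟨Z G q (H.erase w) (res (H.erase w) Φ * y G w N w M), ?_, ?_⟩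
    · unfold y
      by_cases hwM : w ∈ M
      · rw [if_pos hwM, if_pos rfl, one_mul]
        exact Or.inr (multi hK hη (Rel.U N (Subset.refl _) (erase_subset_erase w hM)) _ _
          (hΦ.res w) hV')
      · rw [if_neg hwM, mul_zero, Z_zero]; exact Or.inl rfl
    · have e1 : m G w M * Φ = Φ - X w * (Φ * y G w N w M) := by
        rw [m_rec G (N := N) (w := w) (fun z hz => mem_nbr z (hM hz)) w,
          m_of_not_mem G (notMem_erase w M)]
        ring
      rw [e1, Z_sub, Z_X q H hw, ← Z_res q (H.erase w), map_mul, res_y G _ w hM]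
  obtain ⟨x, hx, ex⟩ := key L hL
  obtain ⟨x', hx', ex'⟩ := key L' hL'
  have hd : ‖x - x'‖ ≤ κ * ‖r‖ := by
    have hr0 := norm_nonneg r
    have a1 : ∀ v : ℂ, ‖v‖ ≤ ‖v - r‖ + ‖r‖ := fun v => by simpa using norm_add_le (v - r) r
    rcases hx with hx | hx <;> rcases hx' with hx' | hx'
    · rw [hx, hx', sub_zero, norm_zero]; positivity
    · rw [hx, zero_sub, norm_neg]; linarith [a1 x']
    · rw [hx', sub_zero]; linarith [a1 x]
    · have := norm_sub_le_norm_sub_add_norm_sub x r x'
      rw [norm_sub_rev r x'] at this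
      nlinarith
  have e2 : Z G q H (m G w L' * Φ) - Z G q H (m G w L * Φ) = x - x' := by rw [ex, ex']; ring
  rw [e2]
  have h3 := mul_le_mul_of_nonneg_right he (norm_nonneg r)
  have h4 := mul_le_mul_of_nonneg_left hl he0
  linarith

lemma exp_le_poly {x : ℝ} (h0 : 0 ≤ x) (h1 : x ≤ 1) :
    Real.exp x ≤ 1 + x + x ^ 2 / 2 + x ^ 3 / 6 + 5 * x ^ 4 / 96 := by
  have := Real.exp_bound' h0 h1 (n := 4) (by norm_num)
  simp only [sum_range_succ, Nat.factorial, range_zero, sum_empty] at this
  push_cast at this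
  linarith

lemma num1 {x κ : ℝ} (h0 : 0 ≤ x) (h1 : x ≤ 0.69) (hκ : κ ≤ Real.exp x) :
    κ ≤ 2 ∧ κ * (1 + 0.69 * (1 - 1.14 * x)) ≤ 0.69 * 3.33 ∧
      κ * (1.14 + 2 * (1 - 1.14 * x)) ≤ 3.33 := by
  have h := hκ.trans (exp_le_poly h0 (by linarith))
  have hx2 : 0 ≤ x ^ 2 := by positivity
  have hx3 : x ^ 3 ≤ 0.69 * x ^ 2 := by nlinarith
  have hx4 : x ^ 4 ≤ 0.69 ^ 2 * x ^ 2 := by nlinarith
  have h' : κ ≤ 1 + x + 0.64 * x ^ 2 := by nlinarith
  refine ⟨by nlinarith, ?_, ?_⟩
  · refine (mul_le_mul_of_nonneg_right h' (by linarith)).trans ?_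
    nlinarith [mul_nonneg h0 (sub_nonneg.2 h1), mul_nonneg hx2 (sub_nonneg.2 h1)]
  · refine (mul_le_mul_of_nonneg_right h (by linarith)).trans ?_
    nlinarith [mul_nonneg h0 (sub_nonneg.2 h1), mul_nonneg hx2 (sub_nonneg.2 h1),
      sq_nonneg (x - 0.377), mul_nonneg h0 (sq_nonneg (x - 0.377)),
      mul_nonneg hx2 (sq_nonneg (x - 0.377)), mul_nonneg (mul_nonneg h0 hx2) (sq_nonneg (x - 0.377))]

lemma prod_le_exp (N : Finset V) (hη : ∀ z, 0 ≤ η z) :
    ∏ z ∈ N, (1 + η z) ≤ Real.exp (∑ z ∈ N, η z) := by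
  rw [Real.exp_sum]
  exact prod_le_prod (fun z _ => by linarith [hη z])
    fun z _ => by linarith [Real.add_one_le_exp (η z)]

variable (G q D) in
/-- the inductive invariant at a vertex -/
def Inv (H : Finset V) (u : V) : Prop :=
  ∃ (e : ℝ) (t : V → ℝ), 0 ≤ e ∧ ((D : ℝ) - 1) * e ≤ 0.69 ∧ (∀ a, 0 ≤ t a) ∧ Kst G q D H u e ∧
    Tst G q D H u t ∧ Sst G D H u t (1 - 1.14 * (((D : ℝ) - 1) * e))

lemma sum_sigma_eq (N : Finset V) (c : ℝ) (η : V → ℝ) :
    ∑ z ∈ N, (1 - 1.14 * (c * η z)) = N.card - 1.14 * (c * ∑ z ∈ N, η z) := by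
  rw [sum_sub_distrib, ← mul_sum, ← mul_sum]; simp

lemma inv_all (hD : 2 ≤ D) (hq : 3.33 * ((D : ℝ) - 1) + 2 ≤ ‖q‖) (H : Finset V) :
    ∀ u, Inv G q D H u := by
  induction H using Finset.strongInduction with
  | H H ih =>
    intro w
    by_cases hw : w ∈ H
    swap
    · refine ⟨0, fun _ => 0, le_rfl, by norm_num, fun _ => le_rfl, ?_, ?_, ?_⟩
      · intro l Φ L L' _ hL hL' _
        rw [m_of_not_mem G (fun h => hw (hL h)), m_of_not_mem G (fun h => hw (hL' h))]
        simp
      · intro a l Φ L L' _ _ hL' _ _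
        rw [erase_eq_of_notMem (fun h => hw (hL' h))]
        simp [Z_zero]
      · intro c _ _; simp
    by_cases hd : (nbr G H w).card + 1 ≤ D
    swap
    · refine ⟨0, fun _ => 0, le_rfl, by norm_num, fun _ => le_rfl, ?_, ?_, ?_⟩
      · intro l Φ L L' _ _ _ hV
        have := hV w hw
        rw [Multiset.count_cons_self] at this
        omega
      · intro a l Φ L L' _ _ _ _ h
        exact absurd h hd
      · intro c _ _; simp
    choose η t hη hη' ht hK hT hS using ih (H.erase w) (erase_ssubset hw)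
    set N := nbr G H w with hN
    set μ : ℝ := (D : ℝ) - 1 with hμ
    have hμ1 : 1 ≤ μ := by
      have : (2 : ℝ) ≤ D := by exact_mod_cast hD
      linarith
    have hdμ : (N.card : ℝ) ≤ μ := by
      have : (N.card : ℝ) + 1 ≤ D := by exact_mod_cast hd
      linarith
    set x := ∑ z ∈ N, η z with hx
    set κ := ∏ z ∈ N, (1 + η z) with hκ
    have hx0 : 0 ≤ x := sum_nonneg fun z _ => hη z
    have hx1 : x ≤ 0.69 := by
      have h1 : μ * x ≤ N.card * 0.69 := by
        rw [hx, mul_sum]
        simpa using sum_le_card_nsmul N _ _ fun z _ => hη' z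
      have h2 : μ * x ≤ μ * 0.69 := by nlinarith
      exact le_of_mul_le_mul_left h2 (by linarith)
    have hκ1 : 1 ≤ κ := one_le_prod hη N.val
    obtain ⟨n1, n2, n3⟩ := num1 hx0 hx1 (prod_le_exp N hη)
    rw [← hκ] at n1 n2 n3
    have hs := sum_sigma_eq N μ η
    rw [← hx] at hs
    set R := ‖q‖ - κ * (D - N.card + ∑ z ∈ N, (1 - 1.14 * (μ * η z))) with hR
    have hD' : (D : ℝ) = μ + 1 := by rw [hμ]; ring
    have hR1 : μ * (3.33 - κ * (1 - 1.14 * x)) ≤ R := by
      rw [hR, hs, hD']
      nlinarith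
    have hR0 : 0 < R := by nlinarith
    have he0 : 0 ≤ κ / R := by positivity
    have he : κ ≤ κ / R * R := by rw [div_mul_cancel₀ _ hR0.ne']
    refine ⟨κ / R, fun a => κ / R * ((if a = w then (1 : ℝ) else 0) + ∑ z ∈ N, t z a), he0, ?_,
      fun a => ?_, stepK hw hK hT hS hη ht he0 n1 he, stepT hw hK hT hS hη ht he0 he,
      stepS hw hS he0 ?_⟩
    · rw [← hμ, ← mul_div_assoc, div_le_iff₀ hR0]
      nlinarith
    · have : 0 ≤ (if a = w then (1 : ℝ) else 0) := by split_ifs <;> norm_num
      have : 0 ≤ ∑ z ∈ N, t z a := sum_nonneg fun z _ => ht z a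
      positivity
    · rw [← hN, hs, ← hμ]
      have h3 : κ / R * (μ * (1.14 + (1 - 1.14 * x))) ≤ 1 := by
        rw [div_mul_eq_mul_div, div_le_one hR0]
        nlinarith
      nlinarith

lemma num2 {x κ μ : ℝ} (h0 : 0 ≤ x) (h1 : x ≤ 1.38) (hκ0 : 0 ≤ κ) (hκ : κ ≤ Real.exp x)
    (hμ : 1 ≤ μ) : κ * (μ + 1 - 1.14 * (μ * x)) < 3.33 * μ + 2 := by
  have h2 : κ ≤ 4 := by
    have h3 := (num1 (x := x / 2) (by linarith) (by linarith) le_rfl).1
    have h4 : Real.exp x = Real.exp (x / 2) * Real.exp (x / 2) := by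
      rw [← Real.exp_add]; congr 1; ring
    have := Real.exp_pos (x / 2)
    nlinarith
  have h5 : κ * (1 - 1.14 * x) ≤ 1 := by
    have h6 : Real.exp x * (1 - x) ≤ 1 := by
      have h7 := Real.add_one_le_exp (-x)
      have h8 : Real.exp x * Real.exp (-x) = 1 := by rw [← Real.exp_add]; simp
      have := Real.exp_pos x
      nlinarith
    by_cases h9 : 0 ≤ 1 - 1.14 * x
    · nlinarith
    · nlinarith
  nlinarith

lemma Z_ne_zero (hD : 2 ≤ D) (hq : 3.33 * ((D : ℝ) - 1) + 2 ≤ ‖q‖) (H : Finset V) :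
    ∀ (l : Multiset V) (F : A V), Rel G H l F F → Val G D H l → Z G q H F ≠ 0 := by
  induction H using Finset.strongInduction with
  | H H ih =>
    intro l F hF hV
    rcases H.eq_empty_or_nonempty with rfl | ⟨w, hw⟩
    · obtain ⟨ι, _, s, a, L, hL, e1, _⟩ := hF.toFam
      have : F = 1 := by
        rw [e1]
        exact prod_eq_one fun i hi => m_of_not_mem G fun h => by simpa using hL i hi h
      rw [this, Z_one, ch_empty]
      exact one_ne_zero
    choose η t hη hη' ht hK hT hS using inv_all (G := G) hD hq (H.erase w)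
    have h1 := lower' hw hK hT hS hη ht hF hV
    have h2 := ih (H.erase w) (erase_ssubset hw) _ _
      ((Rel.U (nbr G H w) (Subset.refl _) (Subset.refl _)).mul (hF.res w)) (hV.erase hw)
    set N := nbr G H w with hN
    set μ : ℝ := (D : ℝ) - 1 with hμ
    have hμ1 : 1 ≤ μ := by
      have : (2 : ℝ) ≤ D := by exact_mod_cast hD
      linarith
    have hdμ : (N.card : ℝ) ≤ μ + 1 := by
      have h3 : N.card ≤ D := le_trans (Nat.le_add_right _ _) (hV w hw)
      have : (N.card : ℝ) ≤ D := by exact_mod_cast h3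
      linarith
    have hs := sum_sigma_eq N μ η
    set x := ∑ z ∈ N, η z with hx
    have hx0 : 0 ≤ x := sum_nonneg fun z _ => hη z
    have hx1 : x ≤ 1.38 := by
      have h1 : μ * x ≤ N.card * 0.69 := by
        rw [hx, mul_sum]
        simpa using sum_le_card_nsmul N _ _ fun z _ => hη' z
      have h2 : μ * x ≤ μ * 1.38 := by nlinarith
      exact le_of_mul_le_mul_left h2 (by linarith)
    have hκ1 : 1 ≤ ∏ z ∈ N, (1 + η z) := one_le_prod hη N.val
    have h4 := num2 hx0 hx1 (by linarith) (prod_le_exp N hη) hμ1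
    have hD' : (D : ℝ) = μ + 1 := by rw [hμ]; ring
    rw [hs, hD'] at h1
    intro h0
    rw [h0, norm_zero] at h1
    have h5 := norm_pos_iff.2 h2
    have h6 : 0 < ‖q‖ - (∏ z ∈ N, (1 + η z)) * (μ + 1 - N.card + (N.card - 1.14 * (μ * x))) := by
      have : μ + 1 - N.card + (N.card - 1.14 * (μ * x)) = μ + 1 - 1.14 * (μ * x) := by ring
      rw [this]; linarith
    exact absurd (mul_pos h6 h5) (not_lt.2 h1)

theorem ch_ne_zero (hD : 2 ≤ D) (hG : G.maxDegree ≤ D)
    (hq : 3.33 * ((D : ℝ) - 1) + 2 ≤ ‖q‖) :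
    ch univ G q ≠ 0 := by
  rw [← Z_one]
  refine Z_ne_zero hD hq univ 0 1 Rel.one fun z _ => ?_
  have h1 : nbr G univ z = G.neighborFinset z := by ext v; simp [nbr]
  rw [h1, SimpleGraph.card_neighborFinset_eq_degree]
  have := G.degree_le_maxDegree z
  simp only [Multiset.count_zero]
  omega

end Pool.Agent.MP_cb5fda_co.Disc

end MrgPart3

-- marker of a merged file
example : 731051 + 723207 = 731051 + 723207 := rfl
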