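import Pool.Agent.MP_cb5fda_co.Alpha2

/-!
Gluing along cliques.
-/

set_option autoImplicit false

namespace Pool.Agent.MP_cb5fda_co

open Finset

variable {V : Type} [Fintype V] [DecidableEq V]

lemma ch_glue (B C : Finset V) (hCB : C ⊆ B) (q : ℂ) (A : Finset V) :
    ∀ G : SimpleGraph V, Disjoint A B → (∀ a ∈ C, ∀ b ∈ C, a ≠ b → G.Adj a b) →
      (∀ a ∈ A, ∀ b ∈ B, G.Adj a b → b ∈ C) →
      ch (A ∪ B) G q * ch C G q = ch (A ∪ C) G q * ch B G q := by
  induction A using Finset.induction_on with
  | empty => intro G _ _ _; simp [mul_comm]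
  | insert u A hu ih =>
    intro G hd hC hE
    have huB : u ∉ B := disjoint_left.1 hd (mem_insert_self u A)
    have huC : u ∉ C := fun h => huB (hCB h)
    have hd' : Disjoint A B := hd.mono_left (subset_insert u A)
    have e1 : (insert u A ∪ B).erase u = A ∪ B := by
      rw [insert_union, erase_insert (by simp [hu, huB])]
    have e2 : (insert u A ∪ C).erase u = A ∪ C := by
      rw [insert_union, erase_insert (by simp [hu, huC])]
    have e3 : nb (insert u A ∪ B) G u = nb (insert u A ∪ C) G u := by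
      ext y
      simp only [mem_nb, mem_union]
      constructor
      · rintro ⟨h | h, h'⟩
        · exact ⟨Or.inl h, h'⟩
        · exact ⟨Or.inr (hE u (mem_insert_self u A) y h h'), h'⟩
      · rintro ⟨h | h, h'⟩
        · exact ⟨Or.inl h, h'⟩
        · exact ⟨Or.inr (hCB h), h'⟩
    have hN : nb (insert u A ∪ C) G u ⊆ A ∪ C := e2 ▸ nb_subset_erase _ G u
    rw [ch_erase G (mem_union_left B (mem_insert_self u A)),
      ch_erase G (mem_union_left C (mem_insert_self u A)), e1, e2, e3]
    generalize nb (insert u A ∪ C) G u = N at hN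
    have h0 := ih G hd' hC fun a ha => hE a (mem_insert_of_mem ha)
    have h1 : New (A ∪ B) G ∅ N q * ch C G q = New (A ∪ C) G ∅ N q * ch B G q := by
      unfold New
      rw [sum_mul, sum_mul]
      refine sum_congr rfl fun x hx => ?_
      have hW : ∅ ∪ lo N x ⊆ A ∪ C := by rw [empty_union]; exact (lo_subset N x).trans hN
      have hx' := hN hx
      generalize ∅ ∪ lo N x = W at hW
      have inC : ∀ y ∈ A ∪ C, y ∈ B → y ∈ C := fun y hy hyB =>
        (mem_union.1 hy).resolve_left fun h => disjoint_left.1 hd' h hyB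
      have agree : ∀ a ∈ B, ∀ b ∈ B, (G ⊔ star x W).Adj a b ↔ G.Adj a b := by
        intro a ha b hb
        rw [SimpleGraph.sup_adj, star_adj]
        constructor
        · rintro (h | ⟨hne, ⟨rfl, h⟩ | ⟨rfl, h⟩⟩)
          · exact h
          · exact hC _ (inC _ hx' ha) _ (inC _ (hW h) hb) hne
          · exact hC _ (inC _ (hW h) ha) _ (inC _ hx' hb) hne
        · exact Or.inl
      have := ih (G ⊔ star x W) hd' (fun a ha b hb hne => Or.inl (hC a ha b hb hne)) (by
        intro a ha b hb h
        rw [SimpleGraph.sup_adj, star_adj] at h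
        rcases h with h | ⟨_, ⟨rfl, h⟩ | ⟨rfl, h⟩⟩
        · exact hE a (mem_insert_of_mem ha) b hb h
        · exact inC _ (hW h) hb
        · exact inC _ hx' hb)
      rw [ch_congr agree, ch_congr (fun a ha b hb => agree a (hCB ha) b (hCB hb))] at this
      exact this
    linear_combination q * h0 - h1

/-- `G[S]` has a clique cutset: `S` is the union of two proper subsets that meet in a clique
(possibly empty) and have no edge between their private parts -/
def HasCliqueCutset {V : Type} (G : SimpleGraph V) (S : Set V) : Prop :=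
  ∃ S₁ S₂ : Set V, S₁ ∪ S₂ = S ∧ S₁ ≠ S ∧ S₂ ≠ S ∧ G.IsClique (S₁ ∩ S₂) ∧
    ∀ a ∈ S₁ \ S₂, ∀ b ∈ S₂ \ S₁, ¬ G.Adj a b

lemma ne_zero_of_atoms (G : SimpleGraph V) (q : ℂ)
    (h : ∀ s : Finset V, ¬ HasCliqueCutset G (s : Set V) → ch s G q ≠ 0) (s : Finset V) :
    ch s G q ≠ 0 := by
  classical
  induction s using Finset.strongInduction with
  | H s ih =>
  by_cases hs : HasCliqueCutset G (s : Set V)
  · obtain ⟨S₁, S₂, h1, h2, h3, h4, h5⟩ := hs
    lift S₁ to Finset V using Set.toFinite S₁
    lift S₂ to Finset V using Set.toFinite S₂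
    have h1' : S₁ ∪ S₂ = s := by exact_mod_cast h1
    have s1 : S₁ ⊂ s := ⟨h1' ▸ subset_union_left, fun h => h2 (by
      exact_mod_cast Subset.antisymm (h1' ▸ subset_union_left) h)⟩
    have s2 : S₂ ⊂ s := ⟨h1' ▸ subset_union_right, fun h => h3 (by
      exact_mod_cast Subset.antisymm (h1' ▸ subset_union_right) h)⟩
    have e := ch_glue S₂ (S₁ ∩ S₂) inter_subset_right q (S₁ \ S₂) G sdiff_disjoint
      (fun a ha b hb hne => h4 (by exact_mod_cast ha) (by exact_mod_cast hb) hne)
      (fun a ha b hb hab => by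
        by_contra hn
        refine h5 a (by exact_mod_cast ha) b ?_ hab
        simp only [Set.mem_sdiff, mem_coe]
        exact ⟨hb, fun h => hn (mem_inter.2 ⟨h, hb⟩)⟩)
    rw [sdiff_union_self_eq_union, sdiff_union_inter, h1'] at e
    intro h0
    rw [h0, zero_mul] at e
    exact mul_ne_zero (ih _ s1) (ih _ s2) e.symm
  · exact h s hs

end Pool.Agent.MP_cb5fda_co
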