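import Mathlib.Algebra.Order.Star.Real
import Mathlib.Analysis.CStarAlgebra.Classes
import Mathlib.Tactic.Polynomial.Basic
import Pool.Agent.MP_cb5fda_co.Chrom

-- ======== part 0: formerly Pool.Agent.MP_cb5fda_co.Quad
section MrgPart0

/-!
Elementary facts on quadrants, sectors and discs in the complex plane.
-/

set_option autoImplicit false

namespace Pool.Agent.MP_cb5fda_co

open Complex ComplexConjugate

/-- the closed first quadrant -/
def Q1 (z : ℂ) : Prop := 0 ≤ z.re ∧ 0 ≤ z.im

/-- `z` lies in the quarter plane whose upper edge is the ray through `P` -/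
def Sec (P z : ℂ) : Prop := Q1 (P * conj z)

lemma Sec_zero (P : ℂ) : Sec P 0 := by simp [Sec, Q1]

lemma Sec_self (P : ℂ) : Sec P P := by
  simp only [Sec, Q1, mul_conj, ofReal_re, ofReal_im]
  exact ⟨normSq_nonneg P, le_rfl⟩

lemma Sec.add {P a b : ℂ} (ha : Sec P a) (hb : Sec P b) : Sec P (a + b) := by
  simp only [Sec, Q1, map_add, mul_add, add_re, add_im] at *
  exact ⟨add_nonneg ha.1 hb.1, add_nonneg ha.2 hb.2⟩

lemma Sec_sum {ι : Type} (P : ℂ) (s : Finset ι) (f : ι → ℂ) (h : ∀ i ∈ s, Sec P (f i)) :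
    Sec P (∑ i ∈ s, f i) :=
  Finset.sum_induction f (Sec P) (fun _ _ => Sec.add) (Sec_zero P) h

lemma re_nonneg_of_Q1 {a b : ℂ} (ha : Q1 a) (hb : Q1 b) : 0 ≤ (a * conj b).re := by
  simp only [mul_re, conj_re, conj_im]
  nlinarith [mul_nonneg ha.1 hb.1, mul_nonneg ha.2 hb.2]

lemma im_nonneg_of_Q1 {a b : ℂ} (ha : Q1 a) (hb : Q1 b) : 0 ≤ (a * b).im := by
  simp only [mul_im]
  nlinarith [mul_nonneg ha.1 hb.2, mul_nonneg ha.2 hb.1]

lemma re_nonneg_of_Sec {P a b : ℂ} (hP : P ≠ 0) (ha : Sec P a) (hb : Sec P b) :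
    0 ≤ (a * conj b).re := by
  have h := re_nonneg_of_Q1 hb ha
  have e : P * conj b * conj (P * conj a) = (normSq P : ℂ) * (a * conj b) := by
    rw [← mul_conj]; simp only [map_mul, conj_conj]; ring
  rw [e, re_ofReal_mul] at h
  exact (mul_nonneg_iff_of_pos_left (normSq_pos.2 hP)).1 h

lemma ne_zero_of_Sec {P t : ℂ} (hP : P ≠ 0) (ht : Sec P t) : P + t ≠ 0 := by
  intro h
  have e : t = -P := by linear_combination h
  have := ht.1
  rw [e, map_neg, mul_neg, mul_conj, neg_re, ofReal_re] at this
  have := normSq_pos.2 hP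
  linarith

lemma chain_im {q a a' m : ℂ} (h0 : a' ≠ 0) (h1 : Q1 (a * conj a')) (h2 : Sec (q * a') m) :
    0 ≤ (q * a * conj m).im := by
  have h := im_nonneg_of_Q1 h1 h2
  have e : a * conj a' * (q * a' * conj m) = (normSq a' : ℂ) * (q * a * conj m) := by
    rw [← mul_conj]; ring
  rw [e, im_ofReal_mul] at h
  exact (mul_nonneg_iff_of_pos_left (normSq_pos.2 h0)).1 h

lemma chain_re {P b b0 : ℂ} (h0 : b0 ≠ 0) (h1 : Sec P b0) (h2 : Q1 (b * conj b0)) :
    0 ≤ (P * conj b).re := by
  have h := re_nonneg_of_Q1 h1 h2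
  have e : P * conj b0 * conj (b * conj b0) = (normSq b0 : ℂ) * (P * conj b) := by
    rw [← mul_conj]; simp only [map_mul, conj_conj]; ring
  rw [e, re_ofReal_mul] at h
  exact (mul_nonneg_iff_of_pos_left (normSq_pos.2 h0)).1 h

lemma normSq_le_of_disc {c y : ℂ} (h : 0 ≤ ((c - y) * conj y).re) :
    normSq y ≤ normSq c ∧ normSq (c - y) ≤ normSq c := by
  have e : normSq c = normSq (c - y) + normSq y + 2 * ((c - y) * conj y).re := by
    rw [← normSq_add]; simp
  have h1 := normSq_nonneg y
  have h2 := normSq_nonneg (c - y)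
  constructor <;> linarith

lemma re_mul_conj_le {y c : ℂ} (h : normSq y ≤ normSq c) : (y * conj c).re ≤ normSq c := by
  have e := normSq_nonneg (y - c)
  rw [normSq_sub] at e
  linarith

lemma re_pos_of_disc {c y : ℂ} (h0 : y ≠ 0) (h : 0 ≤ ((c - y) * conj y).re) :
    0 < (y * conj c).re := by
  have e : (y * conj c).re = ((c - y) * conj y).re + normSq y := by
    simp only [mul_re, sub_re, sub_im, conj_re, conj_im, normSq_apply]; ring
  have := normSq_pos.2 h0
  linarith

lemma im_le_of {S g : ℂ} (h1 : 0 ≤ S.im) (h2 : 0 ≤ (S * conj g).im) (h3 : g.re ≤ S.re)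
    (h4 : 0 < S.re) : g.im ≤ S.im := by
  simp only [mul_im, conj_re, conj_im] at h2
  by_contra h
  push Not at h
  nlinarith

lemma not_second_quadrant {P a b : ℂ} (hP : P ≠ 0) (ha : Sec P a) (hb : 0 ≤ (P * conj b).re)
    (h : (a * conj b).re < 0) : (a * conj b).im ≤ 0 := by
  have e : conj (P * conj a) * (P * conj b) = (normSq P : ℂ) * (a * conj b) := by
    rw [← mul_conj]; simp only [map_mul, conj_conj]; ring
  have hre := congrArg Complex.re e
  have him := congrArg Complex.im e
  rw [re_ofReal_mul] at hre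
  rw [im_ofReal_mul] at him
  obtain ⟨a1, a2⟩ := ha
  have hp := normSq_pos.2 hP
  generalize P * conj a = α at *
  generalize P * conj b = β at *
  simp only [mul_re, mul_im, conj_re, conj_im] at hre him
  have h1 : normSq P * (a * conj b).re < 0 := mul_neg_of_pos_of_neg hp h
  simp only [mul_re, conj_re, conj_im] at h1
  have hb2 : β.im < 0 := by
    by_contra hc
    push Not at hc
    nlinarith [mul_nonneg a1 hb, mul_nonneg a2 hc]
  have h2 : normSq P * (a * conj b).im ≤ 0 := by
    simp only [mul_im, conj_re, conj_im]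
    nlinarith [mul_nonneg a1 (neg_nonneg.2 hb2.le), mul_nonneg a2 hb]
  exact nonpos_of_mul_nonpos_right h2 hp |> fun h => h

lemma pair_re_nonneg {P P' a b c : ℂ} (hP : P ≠ 0) (hP' : P' ≠ 0) (ha : Sec P a)
    (hb : 0 ≤ (P * conj b).re) (hb' : Sec P' b) (ha' : 0 ≤ (P' * conj a).re)
    (hac : 0 < (a * conj c).re) (hbc : 0 < (b * conj c).re) : 0 ≤ (a * conj b).re := by
  by_contra h
  push Not at h
  have h1 := not_second_quadrant hP ha hb h
  have e1 : (b * conj a).re = (a * conj b).re := by simp only [mul_re, conj_re, conj_im]; ring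
  have e2 : (b * conj a).im = -(a * conj b).im := by simp only [mul_im, conj_re, conj_im]; ring
  have h2 := not_second_quadrant hP' hb' ha' (e1 ▸ h)
  have h3 : (a * conj b).im = 0 := by linarith
  have e : (a * conj c).re * normSq b = (a * conj b).re * (b * conj c).re
      - (a * conj b).im * (b * conj c).im := by
    simp only [mul_re, mul_im, conj_re, conj_im, normSq_apply]; ring
  rw [h3] at e
  have := normSq_nonneg b
  nlinarith

end Pool.Agent.MP_cb5fda_co

end MrgPart0

-- ======== part 1: formerly Pool.Agent.MP_cb5fda_co.Order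
section MrgPart1

/-!
Zero-free half-plane in terms of the number of vertices. Four claims on ratios of chromatic
polynomials are proved together by induction on the vertex set.
-/

set_option autoImplicit false

namespace Pool.Agent.MP_cb5fda_co

open Finset Complex ComplexConjugate

variable {V : Type} [Fintype V] [DecidableEq V]

/-- no zeros right of `|s| - 1` -/
def Zs (s : Finset V) : Prop := ∀ (G : SimpleGraph V) (q : ℂ), (s.card : ℝ) - 1 < q.re →
  0 ≤ q.im → ch s G q ≠ 0

/-- adding a star multiplies the value by a number in the disc with diameter `[0,1]` -/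
def Ds (s : Finset V) : Prop := ∀ (G : SimpleGraph V) (q : ℂ), (s.card : ℝ) - 1 < q.re →
  0 ≤ q.im → ∀ u ∈ s, ∀ E : Finset V,
    0 ≤ ((ch s G q - ch s (G ⊔ star u E) q) * conj (ch s (G ⊔ star u E) q)).re

/-- adding a vertex multiplies the value by a number in the first quadrant -/
def Ts (s : Finset V) : Prop := ∀ (G : SimpleGraph V) (q : ℂ), (s.card : ℝ) - 1 < q.re →
  0 ≤ q.im → ∀ u ∈ s, Q1 (ch s G q * conj (ch (s.erase u) G q))

/-- all one-star extensions lie in the quarter plane below the cone over the graph -/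
def Ss (s : Finset V) : Prop := ∀ (G : SimpleGraph V) (q : ℂ), (s.card : ℝ) < q.re →
  0 ≤ q.im → Sec (q * ch s G (q - 1)) (ch s G q) ∧
    ∀ u ∈ s, ∀ E : Finset V, Sec (q * ch s G (q - 1)) (ch s (G ⊔ star u E) q)

lemma Ss.new {s : Finset V} (h : Ss s) (G : SimpleGraph V) {q : ℂ} (h1 : (s.card : ℝ) < q.re)
    (h2 : 0 ≤ q.im) (F : Finset V) {D : Finset V} (hD : D ⊆ s) :
    Sec (q * ch s G (q - 1)) (New s G F D q) :=
  Sec_sum _ _ _ fun x hx => (h G q h1 h2).2 x (hD hx) _

lemma Ss.decomp {s : Finset V} {u : V} (hu : u ∈ s) (h : Ss (s.erase u)) (G : SimpleGraph V)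
    {q : ℂ} (h1 : ((s.erase u).card : ℝ) < q.re) (h2 : 0 ≤ q.im) :
    ∃ t, Sec (q * ch (s.erase u) G (q - 1)) t ∧ ch s G q = q * ch (s.erase u) G (q - 1) + t :=
  ⟨_, h.new G h1 h2 (nb s G u) (eff_subset s G u s), by
    rw [ch_addStar G hu s q, ch_star_all G hu]⟩

lemma Ss.ext1 {s : Finset V} {u : V} (hu : u ∈ s) (h : Ss (s.erase u)) (G : SimpleGraph V)
    {q : ℂ} (h1 : ((s.erase u).card : ℝ) < q.re) (h2 : 0 ≤ q.im) (E : Finset V) :
    Sec (q * ch (s.erase u) G (q - 1)) (ch s (G ⊔ star u E) q) := by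
  obtain ⟨t, ht, e⟩ := h.decomp hu (G ⊔ star u E) h1 h2
  rw [ch_congr (star_erase G s u E)] at ht e
  rw [e]
  exact (Sec_self _).add ht

lemma Ss.diff {s : Finset V} {u : V} (hu : u ∈ s) (h : Ss (s.erase u)) (G : SimpleGraph V)
    {q : ℂ} (h1 : ((s.erase u).card : ℝ) < q.re) (h2 : 0 ≤ q.im) (E : Finset V) :
    Sec (q * ch (s.erase u) G (q - 1)) (ch s G q - ch s (G ⊔ star u E) q) := by
  rw [ch_addStar G hu E q, add_sub_cancel_left]
  exact h.new G h1 h2 _ (eff_subset s G u E)

lemma New_re_le_of {s : Finset V} {G : SimpleGraph V} {q c : ℂ} {F D : Finset V}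
    (h : ∀ x ∈ D, (ch s (G ⊔ star x (F ∪ lo D x)) q * conj c).re ≤ normSq c) :
    (New s G F D q * conj c).re ≤ D.card * normSq c := by
  unfold New
  rw [sum_mul, re_sum]
  calc _ ≤ ∑ _x ∈ D, normSq c := sum_le_sum h
    _ = _ := by simp

lemma Ds.new_re_le {s : Finset V} (h : Ds s) (G : SimpleGraph V) {q : ℂ}
    (h1 : (s.card : ℝ) - 1 < q.re) (h2 : 0 ≤ q.im) (F : Finset V) {D : Finset V} (hD : D ⊆ s) :
    (New s G F D q * conj (ch s G q)).re ≤ D.card * normSq (ch s G q) :=
  New_re_le_of fun x hx => re_mul_conj_le (normSq_le_of_disc (h G q h1 h2 x (hD hx) _)).1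

/-- quantitative real part of the cone over the graph against a one-star extension -/
lemma Ds.sre {s : Finset V} (h : Ds s) (G : SimpleGraph V) {q : ℂ}
    (h1 : (s.card : ℝ) - 1 < q.re) (h2 : 0 ≤ q.im) {u : V} (hu : u ∈ s) (E : Finset V) :
    (q.re - s.card) * normSq (ch s (G ⊔ star u E) q) ≤
      (q * ch s G (q - 1) * conj (ch s (G ⊔ star u E) q)).re := by
  rw [ch_congr (eff_adj s G u E)]
  have hE := eff_subset s G u E
  have hd := eff_disj s G u E
  generalize eff s G u E = E at hE hd
  set N := nb s G u with hN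
  set G' := G ⊔ star u E with hG'
  set c := ch s G' q with hc
  have hNs : N ⊆ s := (nb_subset_erase s G u).trans (erase_subset _ _)
  have hEs : E ⊆ s := hE.trans (erase_subset _ _)
  have hNE : N ∪ E ⊆ s := union_subset hNs hEs
  have e1 := ch_addEdges G hu hE hd (q - 1)
  have e2 := ch_unused s G' q
  have e3 : New s G' ∅ s q = New s G' ∅ N q + New s G' N E q + New s G' (N ∪ E) (s \ (N ∪ E)) q := by
    rw [← New_split G' hNs hEs hd, ← New_split G' hNE sdiff_subset disjoint_sdiff,
      union_sdiff_of_subset hNE]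
  have e4 : q * New (s.erase u) G N E (q - 1) =
      ∑ x ∈ E, ch s ((G' ⊔ star x (N ∪ lo E x)) ⊔ star u s) q := by
    unfold New
    rw [mul_sum]
    refine sum_congr rfl fun x _ => ?_
    rw [ch_star_all _ hu]
    congr 1
    refine ch_congr (fun a ha b hb => ?_) _
    have := star_erase G s u E a ha b hb
    simp only [hG', SimpleGraph.sup_adj] at this ⊢
    rw [this]
  have e5 : q * ch s G (q - 1) = q * c - New s G' ∅ N q - New s G' (N ∪ E) (s \ (N ∪ E)) q -
      ∑ x ∈ E, (ch s (G' ⊔ star x (N ∪ lo E x)) q -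
        ch s ((G' ⊔ star x (N ∪ lo E x)) ⊔ star u s) q) := by
    rw [e1, mul_add, e2, e3, e4, sum_sub_distrib]
    unfold New
    ring
  have b1 := h.new_re_le G' h1 h2 ∅ hNs
  have b2 := h.new_re_le G' h1 h2 (N ∪ E) (D := s \ (N ∪ E)) sdiff_subset
  have b3 : ((∑ x ∈ E, (ch s (G' ⊔ star x (N ∪ lo E x)) q -
        ch s ((G' ⊔ star x (N ∪ lo E x)) ⊔ star u s) q)) * conj c).re ≤ E.card * normSq c := by
    rw [sum_mul, re_sum]
    calc _ ≤ ∑ _x ∈ E, normSq c := sum_le_sum fun x hx => re_mul_conj_le
            ((normSq_le_of_disc (h _ q h1 h2 u hu s)).2.trans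
              (normSq_le_of_disc (h G' q h1 h2 x (hEs hx) _)).1)
      _ = _ := by simp
  have hcard : (s.card : ℝ) = N.card + E.card + (s \ (N ∪ E)).card := by
    have := card_sdiff_add_card_eq_card hNE
    rw [card_union_of_disjoint hd] at this
    rw [← this]; push_cast; ring
  rw [e5]
  simp only [sub_mul, sub_re]
  rw [mul_assoc, mul_conj, re_mul_ofReal, hcard]
  rw [← hc] at b1 b2
  linarith

omit [Fintype V] [DecidableEq V] in
lemma star_empty_adj (G : SimpleGraph V) (s : Finset V) (u : V) :
    ∀ a ∈ s, ∀ b ∈ s, (G ⊔ star u ∅).Adj a b ↔ G.Adj a b := by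
  intro a _ b _
  simp [star_adj]

lemma all_claims (s : Finset V) : Zs s ∧ Ds s ∧ Ts s ∧ Ss s := by
  induction s using Finset.strongInduction with
  | H s ih =>
  have key : ∀ u ∈ s, ∀ q : ℂ, (s.card : ℝ) - 1 < q.re → ((s.erase u).card : ℝ) < q.re := by
    intro u hu q h
    rw [← card_erase_add_one hu] at h
    push_cast at h
    linarith
  have hP : ∀ u ∈ s, ∀ (G : SimpleGraph V) (q : ℂ), (s.card : ℝ) - 1 < q.re → 0 ≤ q.im →
      q * ch (s.erase u) G (q - 1) ≠ 0 := by
    intro u hu G q h1 h2
    have h3 := key u hu q h1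
    refine mul_ne_zero (fun e => ?_) ((ih _ (erase_ssubset hu)).1 G _ ?_ ?_)
    · rw [e, zero_re] at h3
      exact absurd h3 (not_lt.2 (Nat.cast_nonneg _))
    · simp only [sub_re, one_re]; linarith
    · simpa using h2
  have hZ : Zs s := by
    intro G q h1 h2
    rcases s.eq_empty_or_nonempty with rfl | ⟨u, hu⟩
    · rw [ch_empty]; exact one_ne_zero
    · obtain ⟨t, ht, e⟩ := (ih _ (erase_ssubset hu)).2.2.2.decomp hu G (key u hu q h1) h2
      rw [e]
      exact ne_zero_of_Sec (hP u hu G q h1 h2) ht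
  have hD : Ds s := by
    intro G q h1 h2 u hu E
    have hS := (ih _ (erase_ssubset hu)).2.2.2
    exact re_nonneg_of_Sec (hP u hu G q h1 h2) (hS.diff hu G (key u hu q h1) h2 E)
      (hS.ext1 hu G (key u hu q h1) h2 E)
  have hT : Ts s := by
    intro G q h1 h2 u hu
    obtain ⟨hZK, hDK, hTK, hSK⟩ := ih _ (erase_ssubset hu)
    have h3 := key u hu q h1
    set K := s.erase u with hK
    set P := q * ch K G (q - 1) with hPdef
    set c := ch K G q with hc
    have hPc : Sec P c := (hSK G q h3 h2).1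
    constructor
    · obtain ⟨t, ht, e⟩ := hSK.decomp hu G h3 h2
      rw [e]
      exact re_nonneg_of_Sec (hP u hu G q h1 h2) ((Sec_self _).add ht) hPc
    · have hc0 : c ≠ 0 := hZK G q (by linarith) h2
      set N := nb s G u with hN
      have hNK : N ⊆ K := nb_subset_erase s G u
      set A := K \ N with hA
      have e1 := ch_erase G hu q
      have e2 := ch_unused K G q
      have e3 : New K G ∅ K q = New K G ∅ N q + New K G N A q := by
        rw [← New_split G hNK sdiff_subset disjoint_sdiff, union_sdiff_of_subset hNK]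
      set g := (A.card : ℂ) * c - New K G N A q with hg
      have b1 := hDK.new_re_le G (q := q) (by linarith) h2 ∅ hNK
      have b2 := hDK.new_re_le G (q := q) (by linarith) h2 N (D := A) sdiff_subset
      have hcard : (K.card : ℝ) = N.card + A.card := by
        have := card_sdiff_add_card_eq_card hNK
        rw [← this]; push_cast; ring
      have b3 : 0 ≤ (P * conj g).im := by
        have : g = ∑ x ∈ A, (c - ch K (G ⊔ star x (N ∪ lo A x)) q) := by
          rw [sum_sub_distrib, hg]; unfold New; simp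
        rw [this, map_sum, mul_sum, im_sum]
        refine sum_nonneg fun x hx => ?_
        have hxK : x ∈ K := sdiff_subset hx
        obtain ⟨hZL, -, -, hSL⟩ := ih (K.erase x) ((erase_ssubset hxK).trans (erase_ssubset hu))
        have h4 : ((K.erase x).card : ℝ) + 1 = K.card := by
          rw [← card_erase_add_one hxK]; push_cast; ring
        refine chain_im (a' := ch (K.erase x) G (q - 1)) (hZL G _ ?_ ?_) (hTK G _ ?_ ?_ x hxK)
          (hSL.diff hxK G (by linarith) h2 _)
        · simp only [sub_re, one_re]; linarith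
        · simpa using h2
        · simp only [sub_re, one_re]; linarith
        · simpa using h2
      have hn := normSq_pos.2 hc0
      have r1 : (P * conj c).re = q.re * normSq c - (New K G ∅ N q * conj c).re
          - (New K G N A q * conj c).re := by
        rw [hPdef, e2, e3, ← hc]
        simp only [sub_mul, add_mul, sub_re, add_re]
        rw [mul_assoc, mul_conj, re_mul_ofReal]; ring
      have r2 : (g * conj c).re = A.card * normSq c - (New K G N A q * conj c).re := by
        rw [hg]
        simp only [sub_mul, sub_re]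
        rw [mul_assoc, mul_conj, re_mul_ofReal]; simp
      rw [← hc] at b1 b2
      have b4 := im_le_of (S := P * conj c) (g := g * conj c) hPc.2 (by
        have : P * conj c * conj (g * conj c) = (normSq c : ℂ) * (P * conj g) := by
          rw [← mul_conj]; simp only [map_mul, conj_conj]; ring
        rw [this, im_ofReal_mul]
        exact mul_nonneg hn.le b3) (by rw [r1, r2]; nlinarith) (by rw [r1]; nlinarith)
      have e4 : ch s G q = P + (A.card : ℂ) * c - g := by
        rw [e1, hPdef, e2, e3, hg]; ring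
      rw [e4]
      simp only [sub_mul, add_mul, sub_im, add_im]
      rw [mul_assoc (A.card : ℂ), mul_conj]
      simp only [mul_im, natCast_re, natCast_im, ofReal_re, ofReal_im] at b4 ⊢
      linarith
  refine ⟨hZ, hD, hT, ?_⟩
  intro G q h1 h2
  have main : ∀ u ∈ s, ∀ E : Finset V, Sec (q * ch s G (q - 1)) (ch s (G ⊔ star u E) q) := by
    intro u hu E
    obtain ⟨hZK, -, -, hSK⟩ := ih _ (erase_ssubset hu)
    have h3 := key u hu q (by linarith)
    have h4 := key u hu (q - 1) (by simp only [sub_re, one_re]; linarith)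
    constructor
    · exact le_trans (mul_nonneg (by linarith) (normSq_nonneg _))
        (hD.sre G (by linarith) h2 hu E)
    · refine chain_im (a' := ch (s.erase u) G (q - 1)) (hZK G _ (by linarith) ?_)
        (hT G _ ?_ ?_ u hu) (hSK.ext1 hu G h3 h2 E)
      · simpa using h2
      · simp only [sub_re, one_re]; linarith
      · simpa using h2
  refine ⟨?_, main⟩
  rcases s.eq_empty_or_nonempty with rfl | ⟨u, hu⟩
  · simp only [ch_empty, Sec, Q1, map_one, mul_one]
    exact ⟨by simpa using h1.le, h2⟩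
  · rw [← ch_congr (star_empty_adj G s u) q]
    exact main u hu ∅

end Pool.Agent.MP_cb5fda_co

end MrgPart1

-- ======== part 2: formerly Pool.Agent.MP_cb5fda_co.Order3
section MrgPart2

/-!
Two more steps to the left: no zeros right of `max (n - 3) (deg u) (deg v)`.
-/

set_option autoImplicit false

namespace Pool.Agent.MP_cb5fda_co

open Finset Complex ComplexConjugate

variable {V : Type} [Fintype V] [DecidableEq V]

omit [Fintype V] in
lemma card_erase_real {s : Finset V} {u : V} (hu : u ∈ s) :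
    ((s.erase u).card : ℝ) = s.card - 1 := by
  rw [← card_erase_add_one hu]; push_cast; ring

lemma cone_ne_zero (s : Finset V) (G : SimpleGraph V) {q : ℂ} (h1 : (s.card : ℝ) < q.re)
    (h2 : 0 ≤ q.im) : q * ch s G (q - 1) ≠ 0 := by
  refine mul_ne_zero (fun e => ?_) ((all_claims s).1 G _ ?_ ?_)
  · rw [e, zero_re] at h1
    exact absurd h1 (not_lt.2 (Nat.cast_nonneg _))
  · simp only [sub_re, one_re]; linarith
  · simpa using h2

lemma cone_cross {L : Finset V} (G : SimpleGraph V) {q : ℂ} (h1 : (L.card : ℝ) - 1 < q.re)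
    (h2 : 0 ≤ q.im) {x x' : V} (hx : x ∈ L) (hx' : x' ∈ L.erase x) (E : Finset V) :
    0 ≤ (q * ch (L.erase x) G (q - 1) * conj (ch L (G ⊔ star x' E) q)).re := by
  have hc := card_erase_real hx
  exact chain_re (b0 := ch (L.erase x) (G ⊔ star x' E) q)
    ((all_claims _).1 _ q (by linarith) h2)
    (((all_claims _).2.2.2 G q (by linarith) h2).2 x' hx' E)
    ((all_claims L).2.2.1 _ q h1 h2 x hx)

lemma pairwise {L : Finset V} (G : SimpleGraph V) {q : ℂ} (h1 : (L.card : ℝ) - 1 < q.re)
    (h2 : 0 ≤ q.im) {x x' : V} (hx : x ∈ L) (hx' : x' ∈ L) (E E' : Finset V) :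
    0 ≤ (ch L (G ⊔ star x E) q * conj (ch L (G ⊔ star x' E') q)).re := by
  have hc := card_erase_real hx
  have hc' := card_erase_real hx'
  have hP := cone_ne_zero (L.erase x) G (q := q) (by linarith) h2
  have hP' := cone_ne_zero (L.erase x') G (q := q) (by linarith) h2
  have s1 := fun E => (all_claims (L.erase x)).2.2.2.ext1 hx G (q := q) (by linarith) h2 E
  have s2 := fun E => (all_claims (L.erase x')).2.2.2.ext1 hx' G (q := q) (by linarith) h2 E
  by_cases e : x' = x
  · subst e
    exact re_nonneg_of_Sec hP (s1 E) (s1 E')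
  · refine pair_re_nonneg (c := ch L G q) hP hP' (s1 E)
      (cone_cross G h1 h2 hx (mem_erase.2 ⟨e, hx'⟩) E') (s2 E')
      (cone_cross G h1 h2 hx' (mem_erase.2 ⟨Ne.symm e, hx⟩) E) ?_ ?_
    · exact re_pos_of_disc ((all_claims L).1 _ q h1 h2) ((all_claims L).2.1 G q h1 h2 x hx E)
    · exact re_pos_of_disc ((all_claims L).1 _ q h1 h2) ((all_claims L).2.1 G q h1 h2 x' hx' E')

lemma re_mul_conj_comm (a b : ℂ) : (a * conj b).re = (b * conj a).re := by
  simp only [mul_re, conj_re, conj_im]; ring

lemma weak_disc {K : Finset V} (G : SimpleGraph V) {q : ℂ} (h1 : (K.card : ℝ) - 2 < q.re)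
    (h2 : 0 ≤ q.im) {x : V} (hx : x ∈ K) (E : Finset V) :
    (ch K (G ⊔ star x E) q * conj (ch K G q)).re ≤ normSq (ch K G q) := by
  have hc := card_erase_real hx
  set L := K.erase x with hL
  have e1 := ch_addStar G hx E q
  have e2 := ch_addStar (G ⊔ star x E) hx K q
  rw [ch_star_all _ hx, ch_congr (star_erase G K x E), New_congr (star_erase G K x E)] at e2
  rw [← hL] at e1 e2
  have hE := eff_subset K G x E
  have hA := eff_subset K (G ⊔ star x E) x K
  generalize eff K (G ⊔ star x E) x K = A at e2 hA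
  generalize nb K (G ⊔ star x E) x = N' at e2
  generalize eff K G x E = E' at e1 hE
  generalize nb K G x = N at e1
  have key : 0 ≤ (New L G N E' q * conj (ch K G q)).re := by
    conv_rhs => unfold New
    rw [sum_mul, re_sum]
    refine sum_nonneg fun d hd => ?_
    rw [re_mul_conj_comm, e1, e2]
    set v := ch L (G ⊔ star d (N ∪ lo E' d)) q with hv
    have b1 := (all_claims L).2.1.sre G (q := q) (by linarith) h2 (hE hd) (N ∪ lo E' d)
    rw [← hv] at b1
    have b2 : 0 ≤ (New L G N' A q * conj v).re := by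
      unfold New
      rw [sum_mul, re_sum]
      exact sum_nonneg fun y hy => pairwise G (by linarith) h2 (hA hy) (hE hd) _ _
    have b3 : normSq v ≤ (New L G N E' q * conj v).re := by
      unfold New
      rw [sum_mul, re_sum]
      have := single_le_sum (f := fun y => (ch L (G ⊔ star y (N ∪ lo E' y)) q * conj v).re)
        (fun y hy => pairwise G (by linarith) h2 (hE hy) (hE hd) _ _) hd
      rw [← hv, mul_conj, ofReal_re] at this
      exact this
    simp only [add_mul, add_re]
    have := normSq_nonneg v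
    nlinarith
  have e3 : ch K (G ⊔ star x E) q = ch K G q - New L G N E' q := by rw [e1]; ring
  rw [e3, sub_mul, sub_re, mul_conj, ofReal_re]
  linarith

lemma ne_zero_step {s : Finset V} (G : SimpleGraph V) {q : ℂ} (h1 : (s.card : ℝ) - 3 < q.re)
    (h2 : 0 ≤ q.im) {u : V} (hu : u ∈ s) (hd : ((nb s G u).card : ℝ) < q.re)
    (h0 : ch (s.erase u) G q ≠ 0) : ch s G q ≠ 0 := by
  have hc := card_erase_real hu
  have b := New_re_le_of (s := s.erase u) (G := G) (q := q) (c := ch (s.erase u) G q) (F := ∅)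
    (D := nb s G u) fun x hx => weak_disc G (by linarith) h2 (nb_subset_erase s G u hx) _
  intro h
  have e := congrArg (fun z => (z * conj (ch (s.erase u) G q)).re) (ch_erase G hu q)
  simp only [h, zero_mul, zero_re, sub_mul, sub_re] at e
  rw [mul_assoc, mul_conj, re_mul_ofReal] at e
  have := normSq_pos.2 h0
  nlinarith

lemma ne_zero_two {s : Finset V} (G : SimpleGraph V) {q : ℂ} (h1 : (s.card : ℝ) - 3 < q.re)
    {u v : V} (hu : u ∈ s) (hv : v ∈ s) (huv : u ≠ v) (hdu : ((nb s G u).card : ℝ) < q.re)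
    (hdv : ((nb s G v).card : ℝ) < q.re) : ch s G q ≠ 0 := by
  wlog h2 : 0 ≤ q.im generalizing q
  · intro h
    refine this (q := conj q) (by simpa using h1) (by simpa using hdu) (by simpa using hdv)
      (by simp only [conj_im]; linarith) ?_
    rw [ch_conj, h, map_zero]
  have hc := card_erase_real hu
  have hv' : v ∈ s.erase u := mem_erase.2 ⟨huv.symm, hv⟩
  have hc' := card_erase_real hv'
  refine ne_zero_step G h1 h2 hu hdu (ne_zero_step G (by linarith) h2 hv' ?_
    ((all_claims _).1 G q (by linarith) h2))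
  refine lt_of_le_of_lt ?_ hdv
  exact_mod_cast card_le_card fun y hy =>
    mem_nb.2 ⟨mem_of_mem_erase (mem_nb.1 hy).1, (mem_nb.1 hy).2⟩

omit [DecidableEq V] in
lemma card_nb_univ (G : SimpleGraph V) [DecidableRel G.Adj] (u : V) :
    (nb univ G u).card = G.degree u := by
  rw [← SimpleGraph.card_neighborFinset_eq_degree]
  congr 1
  ext y
  simp [mem_nb]

end Pool.Agent.MP_cb5fda_co

end MrgPart2

-- marker of a merged file
example : 731051 + 323084 = 731051 + 323084 := rfl
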